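import Pool.Agent.P.MP_4bfc47_co.Rand

/-! Choice of parameters: `n = m ^ 17`, `p = m ^ (-8)`. -/

set_option autoImplicit false
set_option linter.unusedSectionVars false

namespace Pool.Agent.P.MP_4bfc47_co
open Finset

theorem term_le {a b x y : ℝ} (hab : a ≤ b) (hb : 0 ≤ b) (hxy : x ≤ y) :
    a * Real.exp x ≤ b * Real.exp y :=
  mul_le_mul hab (Real.exp_le_exp.mpr hxy) (Real.exp_pos _).le hb

theorem four_le_exp_two : (4 : ℝ) ≤ Real.exp 2 := by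
  have := Real.add_one_le_exp 1
  have h5 : Real.exp 2 = Real.exp 1 * Real.exp 1 := by rw [← Real.exp_add]; norm_num
  nlinarith

/-- The numerical data. -/
structure Num (m s a b n : ℕ) (p ε : ℝ) : Prop where
  hM : (2 : ℝ) ≤ m
  hp : p = ((m : ℝ) ^ 8)⁻¹
  rS : (s : ℝ) = (m : ℝ) ^ 9
  rA : (a : ℝ) = (m : ℝ) ^ 17 / 2 - (m : ℝ) ^ 9
  rB : (b : ℝ) = (m : ℝ) ^ 17 / 2
  rV : (n : ℝ) = (m : ℝ) ^ 17
  hε : 0 < ε
  hε1 : ε < 1

namespace Num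
variable {m s a b n : ℕ} {p ε : ℝ} (h : Num m s a b n p ε)
include h

theorem M0 : (0 : ℝ) < m := by linarith [h.hM]
theorem M1 : (1 : ℝ) ≤ m := by linarith [h.hM]
theorem pw (i j : ℕ) (hij : i ≤ j) : (m : ℝ) ^ i ≤ (m : ℝ) ^ j := pow_le_pow_right₀ h.M1 hij
theorem pw1 (j : ℕ) (hj : 1 ≤ j) : (m : ℝ) ≤ (m : ℝ) ^ j := by simpa using h.pw 1 j hj
theorem p0 : 0 ≤ p := by rw [h.hp]; positivity
theorem p1 : p ≤ 1 := by rw [h.hp]; exact inv_le_one_of_one_le₀ (one_le_pow₀ h.M1)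
theorem pA : p * a = (m : ℝ) ^ 9 / 2 - m := by
  have := h.M0; rw [h.rA, h.hp]; field_simp
theorem pB : p * b = (m : ℝ) ^ 9 / 2 := by
  have := h.M0; rw [h.rB, h.hp]; field_simp
theorem h9 : 4 * (m : ℝ) ≤ (m : ℝ) ^ 9 := by
  have h3 : (2 : ℝ) ^ 8 ≤ (m : ℝ) ^ 8 := pow_le_pow_left₀ (by norm_num) h.hM 8
  have h4 := mul_le_mul_of_nonneg_right h3 h.M0.le
  have := h.M0
  rw [← pow_succ] at h4
  norm_num at h4
  linarith
theorem em : ε ^ 2 * m ≤ m := by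
  have h1 : ε ^ 2 ≤ 1 := pow_le_one₀ h.hε.le h.hε1.le
  have := mul_le_mul_of_nonneg_right h1 h.M0.le
  linarith
theorem ab : (a : ℝ) ≤ b := by rw [h.rA, h.rB]; have := pow_pos h.M0 9; linarith
theorem b17 : (b : ℝ) ≤ (m : ℝ) ^ 17 := by rw [h.rB]; have := pow_pos h.M0 17; linarith
theorem ab17 : (a : ℝ) + b ≤ (m : ℝ) ^ 17 := by
  rw [h.rA, h.rB]; have := pow_pos h.M0 9; linarith
theorem n18 : (n : ℝ) ≤ (m : ℝ) ^ 18 := by rw [h.rV]; exact h.pw 17 18 (by norm_num)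
theorem lowA : ε ^ 2 * m ≤ ε ^ 2 * p * a := by
  rw [mul_assoc, h.pA]; exact mul_le_mul_of_nonneg_left (by linarith [h.h9]) (by positivity)
theorem lowB : ε ^ 2 * m ≤ ε ^ 2 * p * b := by
  rw [mul_assoc, h.pB]
  exact mul_le_mul_of_nonneg_left (by linarith [h.h9, h.M0]) (by positivity)

theorem t1 (j : ℕ) (hj : 3 * (m : ℝ) ≤ (j : ℝ) ^ 2) :
    (4 : ℝ) ^ s * Real.exp (-(p * ((j * m ^ 8 : ℕ) : ℝ) ^ 2))
      ≤ (m : ℝ) ^ 18 * Real.exp (-(ε ^ 2 * m)) := by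
  have hM0 := h.M0
  have h5 : (4 : ℝ) ^ s ≤ Real.exp (s * 2) := by
    rw [Real.exp_nat_mul]; exact pow_le_pow_left₀ (by norm_num) four_le_exp_two _
  refine (mul_le_mul_of_nonneg_right h5 (Real.exp_pos _).le).trans ?_
  rw [← Real.exp_add, ← one_mul (Real.exp _)]
  refine term_le (one_le_pow₀ h.M1) (by positivity) ?_
  have h6 : p * ((j * m ^ 8 : ℕ) : ℝ) ^ 2 = (j : ℝ) ^ 2 * (m : ℝ) ^ 8 := by
    rw [h.hp]; push_cast; field_simp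
  have h11 : 3 * (m : ℝ) ^ 9 ≤ (j : ℝ) ^ 2 * (m : ℝ) ^ 8 := by
    have := mul_le_mul_of_nonneg_right hj (pow_pos hM0 8).le
    linarith [pow_succ' (m : ℝ) 8]
  rw [h6, h.rS]; linarith [h.em, h.h9]

theorem t2 : (s : ℝ) ^ 5 * p ^ 6 ≤ 1 / 8 := by
  have hM0 := h.M0
  have : (s : ℝ) ^ 5 * p ^ 6 = ((m : ℝ) ^ 3)⁻¹ := by rw [h.rS, h.hp]; field_simp
  rw [this, one_div]
  refine inv_anti₀ (by norm_num) ?_
  have := pow_le_pow_left₀ (by norm_num) h.hM 3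
  linarith

theorem t3 : (n : ℝ) * Real.exp (3 * (s * p) - ((4 * m : ℕ) : ℝ))
    ≤ (m : ℝ) ^ 18 * Real.exp (-(ε ^ 2 * m)) := by
  have hM0 := h.M0
  refine term_le h.n18 (by positivity) ?_
  have : (s : ℝ) * p = m := by rw [h.rS, h.hp]; field_simp
  rw [this]; push_cast; linarith [h.em]

theorem t4 : (n : ℝ) * Real.exp (3 * (b * p) - ((4 * m ^ 9 : ℕ) : ℝ))
    ≤ (m : ℝ) ^ 18 * Real.exp (-(ε ^ 2 * m)) := by
  refine term_le h.n18 (by positivity) ?_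
  rw [mul_comm _ p, h.pB]; push_cast; linarith [h.em, h.h9, h.M0]

theorem t5 : (s : ℝ) ^ 2 * Real.exp (3 * (b * p ^ 2) - ((4 * m : ℕ) : ℝ))
    ≤ (m : ℝ) ^ 18 * Real.exp (-(ε ^ 2 * m)) := by
  have hM0 := h.M0
  refine term_le (by rw [h.rS, ← pow_mul]) (by positivity) ?_
  have : (b : ℝ) * p ^ 2 = m / 2 := by rw [h.rB, h.hp]; field_simp
  rw [this]; push_cast; linarith [h.em]

theorem t6 : (s : ℝ) * Real.exp (-(ε ^ 2 * p * b)) ≤ (m : ℝ) ^ 18 * Real.exp (-(ε ^ 2 * m)) :=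
  term_le (by rw [h.rS]; exact h.pw 9 18 (by norm_num)) (by positivity) (by linarith [h.lowB])

theorem t7 : (n : ℝ) * Real.exp (3 * (((s ^ 2 * (s + b) * b ^ 1 : ℕ) : ℝ) *
      p ^ ((2 + 1) * (1 + 1))) - ((20000 * m ^ 8 : ℕ) : ℝ))
    ≤ (m : ℝ) ^ 18 * Real.exp (-(ε ^ 2 * m)) := by
  have hM0 := h.M0
  refine term_le h.n18 (by positivity) ?_
  have hA0 : (0 : ℝ) ≤ a := Nat.cast_nonneg _
  have h3 : (s : ℝ) + b ≤ (m : ℝ) ^ 17 := by rw [h.rS, h.rB]; rw [h.rA] at hA0; linarith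
  have h4 : ((s ^ 2 * (s + b) * b ^ 1 : ℕ) : ℝ) ≤
      ((m : ℝ) ^ 9) ^ 2 * (m : ℝ) ^ 17 * (m : ℝ) ^ 17 := by
    push_cast
    rw [pow_one]
    refine mul_le_mul (mul_le_mul (by rw [h.rS]) h3 (by positivity) (by positivity)) h.b17
      (by positivity) (by positivity)
  have h5 := mul_le_mul_of_nonneg_right h4 (pow_nonneg h.p0 ((2 + 1) * (1 + 1)))
  have h6 : ((m : ℝ) ^ 9) ^ 2 * (m : ℝ) ^ 17 * (m : ℝ) ^ 17 * p ^ ((2 + 1) * (1 + 1))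
      = (m : ℝ) ^ 4 := by rw [h.hp, show (2 + 1) * (1 + 1) = 6 from rfl]; field_simp
  rw [h6] at h5
  have h7 : ((20000 * m ^ 8 : ℕ) : ℝ) = 20000 * (m : ℝ) ^ 8 := by push_cast; rfl
  rw [h7]; linarith [h.em, h.pw1 8 (by norm_num), h.pw 4 8 (by norm_num)]

theorem t8 : (a : ℝ) * Real.exp (-(ε ^ 2 * p * b)) ≤ (m : ℝ) ^ 18 * Real.exp (-(ε ^ 2 * m)) :=
  term_le (by linarith [h.ab, h.b17, h.pw 17 18 (by norm_num)]) (by positivity)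
    (by linarith [h.lowB])

theorem t9 : (b : ℝ) * Real.exp (-(ε ^ 2 * p * a)) ≤ (m : ℝ) ^ 18 * Real.exp (-(ε ^ 2 * m)) :=
  term_le (by linarith [h.b17, h.pw 17 18 (by norm_num)]) (by positivity) (by linarith [h.lowA])

theorem t10 : (n : ℝ) * Real.exp (3 * (((a ^ 1 * (a + b) *
      (4 * m * ((4 * m + 1) * (4 * m ^ 9))) ^ 2 : ℕ) : ℝ) * p ^ ((1 + 1) * (2 + 1)))
      - ((20000 * m ^ 8 : ℕ) : ℝ)) ≤ (m : ℝ) ^ 18 * Real.exp (-(ε ^ 2 * m)) := by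
  have hM0 := h.M0
  refine term_le h.n18 (by positivity) ?_
  have h4 : ((a ^ 1 * (a + b) * (4 * m * ((4 * m + 1) * (4 * m ^ 9))) ^ 2 : ℕ) : ℝ) ≤
      (m : ℝ) ^ 17 * (m : ℝ) ^ 17 * (4 * m * ((5 * m) * (4 * (m : ℝ) ^ 9))) ^ 2 := by
    push_cast
    rw [pow_one]
    refine mul_le_mul (mul_le_mul (by linarith [h.ab, h.b17]) h.ab17 (by positivity)
      (by positivity)) ?_ (by positivity) (by positivity)
    gcongr; linarith [h.M1]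
  have h5 := mul_le_mul_of_nonneg_right h4 (pow_nonneg h.p0 ((1 + 1) * (2 + 1)))
  have h6 : (m : ℝ) ^ 17 * (m : ℝ) ^ 17 * (4 * m * ((5 * m) * (4 * (m : ℝ) ^ 9))) ^ 2 *
      p ^ ((1 + 1) * (2 + 1)) = 6400 * (m : ℝ) ^ 8 := by
    rw [h.hp, show (1 + 1) * (2 + 1) = 6 from rfl]; field_simp; norm_num
  rw [h6] at h5
  have h7 : ((20000 * m ^ 8 : ℕ) : ℝ) = 20000 * (m : ℝ) ^ 8 := by push_cast; rfl
  rw [h7]; linarith [h.em, h.pw1 8 (by norm_num)]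

theorem t11 : (n : ℝ) * Real.exp (3 * (((a ^ 0 * (a + b) *
      (4 * m * (4 * m * (4 * m))) ^ 1 : ℕ) : ℝ) * p ^ ((0 + 1) * (1 + 1)))
      - ((20000 * m ^ 8 : ℕ) : ℝ)) ≤ (m : ℝ) ^ 18 * Real.exp (-(ε ^ 2 * m)) := by
  have hM0 := h.M0
  refine term_le h.n18 (by positivity) ?_
  have h4 : ((a ^ 0 * (a + b) * (4 * m * (4 * m * (4 * m))) ^ 1 : ℕ) : ℝ) ≤
      (m : ℝ) ^ 17 * (4 * m * (4 * m * (4 * m))) := by
    push_cast
    rw [pow_one, pow_zero, one_mul]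
    exact mul_le_mul_of_nonneg_right h.ab17 (by positivity)
  have h5 := mul_le_mul_of_nonneg_right h4 (pow_nonneg h.p0 ((0 + 1) * (1 + 1)))
  have h6 : (m : ℝ) ^ 17 * (4 * m * (4 * m * (4 * m))) * p ^ ((0 + 1) * (1 + 1))
      = 64 * (m : ℝ) ^ 4 := by
    rw [h.hp, show (0 + 1) * (1 + 1) = 2 from rfl]; field_simp; norm_num
  rw [h6] at h5
  have h7 : ((20000 * m ^ 8 : ℕ) : ℝ) = 20000 * (m : ℝ) ^ 8 := by push_cast; rfl
  rw [h7]; linarith [h.em, h.pw1 8 (by norm_num), h.pw 4 8 (by norm_num)]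

theorem deg (hbig : 160065 ≤ 2 * ε * m) : (1 / 2 - 3 * ε) * p * (m : ℝ) ^ 17 +
      ((4 * m * (4 * m * (4 * m)) + 8 * (20000 * m ^ 8) : ℕ) : ℝ) ≤ (1 - ε) ^ 2 * p * a := by
  have hM0 := h.M0
  have hε := h.hε
  have h3 : (1 / 2 - 3 * ε) * p * (m : ℝ) ^ 17 = (1 / 2 - 3 * ε) * (m : ℝ) ^ 9 := by
    rw [h.hp]; field_simp
  have h5 : (1 - 2 * ε) * ((m : ℝ) ^ 9 / 2 - m) ≤ (1 - ε) ^ 2 * ((m : ℝ) ^ 9 / 2 - m) :=
    mul_le_mul_of_nonneg_right (by nlinarith) (by linarith [h.h9])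
  have h6 := mul_le_mul_of_nonneg_right hbig (pow_pos hM0 8).le
  have h38 := h.pw 3 8 (by norm_num)
  have h18 := h.pw1 8 (by norm_num)
  have h10 : 0 ≤ ε * m := by positivity
  rw [h3, mul_assoc _ p (a : ℝ), h.pA]; push_cast
  nlinarith

end Num

theorem bound_at {V : Type*} [DecidableEq V] [Fintype V] (C j m : ℕ) (hm : m = 2 * (C + 1) * j)
    (hj : 6 * (C + 1) ≤ j) (hV : Fintype.card V = m ^ 17) {ε p : ℝ} (hε : 0 < ε) (hε1 : ε < 1)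
    (hbig : 160065 ≤ 2 * ε * m) (hexp : 10 * ((m : ℝ) ^ 18 * Real.exp (-(ε ^ 2 * m))) ≤ 1 / 4)
    (hp : p = ((m : ℝ) ^ 8)⁻¹) (Ω : Finset (Sym2 V)) (hΩ : ∀ x y, x ≠ y → s(x, y) ∈ Ω) :
    Pr Ω p (fun R => ¬ ∃ G : SimpleGraph V, (∀ x y, G.Adj x y → s(x, y) ∈ R) ∧ NoSub G ∧
      (∀ x, (1 / 2 - 3 * ε) * p * (m : ℝ) ^ 17 ≤ ((G.neighborSet x).ncard : ℝ)) ∧
      ¬ G.Colorable C) ≤ 1 / 2 := by
  have hm2 : 2 ≤ m := by nlinarith
  have hjm : 3 * m ≤ j ^ 2 := by nlinarith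
  have hC0 : C * (2 * j) < m := by nlinarith
  obtain ⟨b, h2b⟩ : ∃ b, 2 * b = m ^ 17 :=
    ⟨(C + 1) * j * m ^ 16, by rw [pow_succ m 16]; nth_rewrite 3 [hm]; ring⟩
  have hsb : m ^ 9 ≤ b := by
    have h3 : 2 ^ 8 ≤ m ^ 8 := Nat.pow_le_pow_left hm2 8
    have h4 := Nat.mul_le_mul_right (m ^ 9) h3
    rw [← pow_add] at h4
    norm_num at h4
    omega
  obtain ⟨B, -, hB⟩ := exists_subset_card_eq (s := (univ : Finset V)) (n := b)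
    (by rw [card_univ, hV]; omega)
  have hBc : #Bᶜ = b := by rw [card_compl, hV, hB]; omega
  obtain ⟨S, hS, hSc⟩ := exists_subset_card_eq (s := Bᶜ) (n := m ^ 9) (by omega)
  obtain ⟨A, hA⟩ : ∃ A : Finset V, A = Bᶜ \ S := ⟨_, rfl⟩
  have hAc : #A + m ^ 9 = b := by rw [hA, card_sdiff_of_subset hS]; omega
  have hSB : Disjoint S B := disjoint_left.mpr fun x hx => mem_compl.mp (hS hx)
  have hAB : Disjoint A B := disjoint_left.mpr fun x hx =>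
    mem_compl.mp (mem_sdiff.mp (hA ▸ hx)).1
  have hSA : Disjoint S A := hA ▸ disjoint_sdiff
  have hcov : ∀ x, x ∈ S ∨ x ∈ A ∨ x ∈ B := by
    intro x
    by_cases h : x ∈ B
    · exact Or.inr (Or.inr h)
    · by_cases h' : x ∈ S
      · exact Or.inl h'
      · exact Or.inr (Or.inl (hA ▸ mem_sdiff.mpr ⟨mem_compl.mpr h, h'⟩))
  have rB : (#B : ℝ) = (m : ℝ) ^ 17 / 2 := by
    have : ((2 * b : ℕ) : ℝ) = ((m ^ 17 : ℕ) : ℝ) := by rw [h2b]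
    push_cast at this
    rw [hB]; linarith
  have rA : (#A : ℝ) = (m : ℝ) ^ 17 / 2 - (m : ℝ) ^ 9 := by
    have : ((#A + m ^ 9 : ℕ) : ℝ) = (#B : ℝ) := by rw [hAc, hB]
    push_cast at this
    linarith
  have N : Num m #S #A #B (Fintype.card V) p ε :=
    ⟨by exact_mod_cast hm2, hp, by rw [hSc]; push_cast; rfl, rA, rB, by rw [hV]; push_cast; rfl,
      hε, hε1⟩
  have h0 := N.p0
  have h1 := N.p1
  have hl' : (1 - ε) ^ 2 * p * #A ≤ (1 - ε) ^ 2 * p * #B :=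
    mul_le_mul_of_nonneg_left N.ab (by positivity)
  have hKΩ : K A B ⊆ Ω := K_subset_iff.mpr fun x hx y hy =>
    hΩ x y fun h => disjoint_left.mp hAB hx (h ▸ hy)
  have hΩS : ∀ x ∈ S, ∀ y, x ≠ y → s(x, y) ∈ Ω \ K A B := by
    intro x hx y hne
    refine mem_sdiff.mpr ⟨hΩ x y hne, fun h => ?_⟩
    rcases mem_K.mp h with h | h
    · exact disjoint_left.mp hSA hx h.1
    · exact disjoint_left.mp hSB hx h.1
  have E1 := Pr_not_good1 (Ω := Ω \ K A B) h0 h1 hSB hΩS (j * m ^ 8) (4 * m) (4 * m ^ 9) (4 * m)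
    (20000 * m ^ 8) hε hε1 hl'
  have hC : C * (2 * (j * m ^ 8)) < #S := by
    rw [hSc, pow_succ' m 8]
    calc C * (2 * (j * m ^ 8)) = C * (2 * j) * m ^ 8 := by ring
      _ < _ := Nat.mul_lt_mul_of_pos_right hC0 (by positivity)
  rw [← sdiff_union_of_subset hKΩ]
  refine (Pr_two_stage h0 h1 sdiff_disjoint _
    (fun Q => ¬ Good1 S B (j * m ^ 8) (4 * m) (4 * m ^ 9) (4 * m) (20000 * m ^ 8)
      ((1 - ε) ^ 2 * p * #A) Q)
    (δ := 4 * ((m : ℝ) ^ 18 * Real.exp (-(ε ^ 2 * m)))) (by positivity) ?_).trans ?_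
  · intro Q _ hQ
    have g := not_not.mp hQ
    have E2 := Pr_not_good2 h0 h1 hAB hε hε1 g hl' le_rfl
    refine le_trans (Pr_mono h0 h1 ?_) (E2.trans ?_)
    swap
    · linarith only [N.t8, N.t9, N.t10, N.t11]
    intro R _ hR g'
    apply hR
    obtain ⟨G, a1, a2, a3, a4⟩ := exists_graph hSA hSB hAB hcov g g' C hC
    exact ⟨G, a1, a2, fun x => by linarith only [a3 x, N.deg hbig], a4⟩
  · linarith only [E1, N.t1 j (by exact_mod_cast hjm), N.t2, N.t3, N.t4, N.t5, N.t6, N.t7, hexp]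

end Pool.Agent.P.MP_4bfc47_co
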