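import Pool.Agent.P.MP_4bfc47_co.Prob

/-! The deterministic part of the construction. -/

set_option autoImplicit false
set_option linter.unusedSectionVars false

namespace Pool.Agent.P.MP_4bfc47_co
open Finset

variable {V : Type*} [DecidableEq V]

/-- Edges between `X` and `Y`. -/
def K (X Y : Finset V) : Finset (Sym2 V) := (X ×ˢ Y).image fun q => s(q.1, q.2)

/-- Neighbours of `x` in `T` along the edge set `R`. -/
def nb (R : Finset (Sym2 V)) (x : V) (T : Finset V) : Finset V := T.filter fun y => s(x, y) ∈ R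

/-- Common neighbours in `T`. -/
def cod (R : Finset (Sym2 V)) (x x' : V) (T : Finset V) : Finset V :=
  T.filter fun y => s(x, y) ∈ R ∧ s(x', y) ∈ R

theorem mem_nb {R : Finset (Sym2 V)} {x y : V} {T : Finset V} :
    y ∈ nb R x T ↔ y ∈ T ∧ s(x, y) ∈ R := mem_filter

theorem mem_cod {R : Finset (Sym2 V)} {x x' y : V} {T : Finset V} :
    y ∈ cod R x x' T ↔ y ∈ T ∧ s(x, y) ∈ R ∧ s(x', y) ∈ R := mem_filter

theorem mem_K' {X Y : Finset V} {e : Sym2 V} : e ∈ K X Y ↔ ∃ x ∈ X, ∃ y ∈ Y, s(x, y) = e := by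
  simp only [K, mem_image, mem_product, Prod.exists]
  constructor
  · rintro ⟨x, y, ⟨hx, hy⟩, h⟩; exact ⟨x, hx, y, hy, h⟩
  · rintro ⟨x, hx, y, hy, h⟩; exact ⟨x, y, ⟨hx, hy⟩, h⟩

theorem mem_K {X Y : Finset V} {x y : V} :
    s(x, y) ∈ K X Y ↔ (x ∈ X ∧ y ∈ Y) ∨ (x ∈ Y ∧ y ∈ X) := by
  rw [mem_K']
  constructor
  · rintro ⟨a, ha, b, hb, h⟩
    rcases Sym2.eq_iff.mp h with ⟨rfl, rfl⟩ | ⟨rfl, rfl⟩
    · exact Or.inl ⟨ha, hb⟩
    · exact Or.inr ⟨hb, ha⟩
  · rintro (⟨hx, hy⟩ | ⟨hx, hy⟩)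
    · exact ⟨x, hx, y, hy, rfl⟩
    · exact ⟨y, hy, x, hx, Sym2.eq_swap⟩

theorem K_subset_iff {X Y : Finset V} {R : Finset (Sym2 V)} :
    K X Y ⊆ R ↔ ∀ x ∈ X, ∀ y ∈ Y, s(x, y) ∈ R := by
  constructor
  · intro h x hx y hy; exact h (mem_K.mpr (Or.inl ⟨hx, hy⟩))
  · intro h e he
    obtain ⟨x, hx, y, hy, rfl⟩ := mem_K'.mp he
    exact h x hx y hy

theorem card_K {X Y : Finset V} (h : Disjoint X Y) : #(K X Y) = #X * #Y := by
  rw [K, card_image_of_injOn, card_product]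
  rintro ⟨a, b⟩ hab ⟨c, d⟩ hcd he
  simp only [coe_product, Set.mem_prod, mem_coe] at hab hcd
  rcases Sym2.eq_iff.mp he with ⟨h1, h2⟩ | ⟨h1, h2⟩
  · exact Prod.ext h1 h2
  · have h3 : a = d := h1
    exact absurd (h3 ▸ hcd.2 : a ∈ Y) (disjoint_left.mp h hab.1)

theorem mk_right_injective (x : V) : Function.Injective fun y : V => s(x, y) := by
  intro y y' h
  exact Sym2.congr_right.mp h

theorem card_K_inter (R : Finset (Sym2 V)) (x : V) (T : Finset V) :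
    #(K {x} T ∩ R) = #(nb R x T) := by
  rw [← card_image_of_injective (nb R x T) (mk_right_injective x)]
  congr 1
  ext e
  simp only [mem_inter, mem_K', mem_singleton, exists_eq_left, mem_image, mem_nb]
  constructor
  · rintro ⟨⟨y, hy, rfl⟩, h⟩; exact ⟨y, ⟨hy, h⟩, rfl⟩
  · rintro ⟨y, ⟨hy, h⟩, rfl⟩; exact ⟨⟨y, hy, rfl⟩, h⟩

/-- The members of a family of bipartite pairs that contain `x`. -/
def thru (J : Finset (Finset V × Finset V)) (x : V) : Finset (Finset V × Finset V) :=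
  J.filter fun q => x ∈ q.1 ∨ x ∈ q.2

/-- There are `k` edge-disjoint members of `J` through `x` present in `R`. -/
def Many (J : Finset (Finset V × Finset V)) (k : ℕ) (R : Finset (Sym2 V)) (x : V) : Prop :=
  ∃ I ⊆ thru J x, k ≤ #I ∧ (I : Set (Finset V × Finset V)).PairwiseDisjoint (fun q => K q.1 q.2) ∧
    ∀ q ∈ I, K q.1 q.2 ⊆ R

theorem exists_clean (J : Finset (Finset V × Finset V)) (k r : ℕ) (hr : 0 < r)
    (hJ : ∀ q ∈ J, #(K q.1 q.2) = r) (R : Finset (Sym2 V)) :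
    ∃ D : Finset (Sym2 V), (∀ q ∈ J, ¬ K q.1 q.2 ⊆ R \ D) ∧
      ∀ x, ¬ Many J k R x → ∀ T, #(nb D x T) ≤ r * k := by
  obtain ⟨I, hI, hd, hR, hmax⟩ := exists_maximal_family J (fun q => K q.1 q.2)
    (fun q hq => card_pos.mp (by rw [hJ q hq]; exact hr)) R
  refine ⟨_, hmax, fun x hx T => ?_⟩
  have h1 : #(thru I x) ≤ k := by
    by_contra hc
    refine hx ⟨thru I x, filter_subset_filter _ hI, by omega,
      hd.subset (by exact_mod_cast filter_subset _ _), fun q hq => hR q (mem_filter.mp hq).1⟩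
  calc _ = #((nb (I.biUnion fun q => K q.1 q.2) x T).image fun y => s(x, y)) :=
        (card_image_of_injective _ (mk_right_injective x)).symm
    _ ≤ #((thru I x).biUnion fun q => K q.1 q.2) := by
        refine card_le_card fun e he => ?_
        obtain ⟨y, hy, rfl⟩ := mem_image.mp he
        obtain ⟨q, hq, hK⟩ := mem_biUnion.mp (mem_nb.mp hy).2
        refine mem_biUnion.mpr ⟨q, mem_filter.mpr ⟨hq, ?_⟩, hK⟩
        rcases mem_K.mp hK with h | h
        · exact Or.inl h.1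
        · exact Or.inr h.1
    _ ≤ #(thru I x) * r := card_biUnion_le_card_mul _ _ _ fun q hq =>
        (hJ q (hI (mem_filter.mp hq).1)).le
    _ ≤ r * k := by rw [mul_comm]; exact Nat.mul_le_mul_left _ h1

/-- Subsets of size `j + 1` of `B` that are cliques of the relation `N`. -/
def cliq (B : Finset V) (N : V → Finset V) (j : ℕ) : Finset (Finset V) :=
  (B.powersetCard (j + 1)).filter fun Y => ∀ y ∈ Y, Y.erase y ⊆ N y

theorem card_cliq_thru (B : Finset V) (N : V → Finset V) (j M : ℕ) (hN : ∀ y ∈ B, #(N y) ≤ M)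
    (x : V) : #((cliq B N j).filter fun Y => x ∈ Y) ≤ M ^ j := by
  by_cases hx : x ∈ B
  · calc _ ≤ #((N x).powersetCard j) := by
          refine card_le_card_of_injOn (fun Y => Y.erase x) ?_ ?_
          · intro Y hY
            simp only [cliq, coe_filter, mem_filter, mem_powersetCard, Set.mem_ofPred_eq] at hY
            simp only [mem_coe, mem_powersetCard]
            exact ⟨hY.1.2 x hY.2, by rw [card_erase_of_mem hY.2, hY.1.1.2]; rfl⟩
          · intro Y hY Y' hY' h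
            simp only [coe_filter, Set.mem_ofPred_eq] at hY hY'
            rw [← insert_erase hY.2, ← insert_erase hY'.2]
            exact congrArg _ h
      _ ≤ #(N x) ^ j := by rw [card_powersetCard]; exact Nat.choose_le_pow _ _
      _ ≤ M ^ j := Nat.pow_le_pow_left (hN x hx) _
  · rw [filter_eq_empty_iff.mpr]
    · simp
    · intro Y hY hxY
      exact hx ((mem_powersetCard.mp (mem_filter.mp hY).1).1 hxY)

theorem card_cliq (B : Finset V) (N : V → Finset V) (j M : ℕ) (hN : ∀ y ∈ B, #(N y) ≤ M) :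
    #(cliq B N j) ≤ #B * M ^ j := by
  calc _ ≤ #(B.biUnion fun x => (cliq B N j).filter fun Y => x ∈ Y) := by
        refine card_le_card fun Y hY => ?_
        have h := mem_powersetCard.mp (mem_filter.mp hY).1
        obtain ⟨x, hx⟩ : Y.Nonempty := card_pos.mp (by omega)
        exact mem_biUnion.mpr ⟨x, h.1 hx, mem_filter.mpr ⟨hY, hx⟩⟩
    _ ≤ _ := card_biUnion_le_card_mul _ _ _ fun x _ => card_cliq_thru B N j M hN x

/-- The family of pairs (subset of `A`, clique of `N` in `B`). -/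
def fam (A B : Finset V) (i : ℕ) (N : V → Finset V) (j : ℕ) : Finset (Finset V × Finset V) :=
  cliq A (fun _ => A) i ×ˢ cliq B N j

theorem mem_fam {A B : Finset V} {i j : ℕ} {N : V → Finset V} {X Y : Finset V} :
    (X, Y) ∈ fam A B i N j ↔
      X ⊆ A ∧ #X = i + 1 ∧ Y ⊆ B ∧ #Y = j + 1 ∧ ∀ y ∈ Y, Y.erase y ⊆ N y := by
  simp only [fam, cliq, mem_product, mem_filter, mem_powersetCard]
  constructor
  · rintro ⟨⟨⟨h1, h2⟩, -⟩, ⟨h3, h4⟩, h5⟩; exact ⟨h1, h2, h3, h4, h5⟩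
  · rintro ⟨h1, h2, h3, h4, h5⟩
    exact ⟨⟨⟨h1, h2⟩, fun y _ => (erase_subset _ _).trans h1⟩, ⟨h3, h4⟩, h5⟩

theorem card_K_fam {A B : Finset V} (hAB : Disjoint A B) {i j : ℕ} {N : V → Finset V} :
    ∀ q ∈ fam A B i N j, #(K q.1 q.2) = (i + 1) * (j + 1) := by
  rintro ⟨X, Y⟩ hq
  obtain ⟨h1, h2, h3, h4, -⟩ := mem_fam.mp hq
  rw [card_K (hAB.mono h1 h3), h2, h4]

theorem card_thru_fam (A B : Finset V) (i j M : ℕ) (N : V → Finset V)
    (hN : ∀ y ∈ B, #(N y) ≤ M) (x : V) :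
    #(thru (fam A B i N j) x) ≤ #A ^ i * (#A + #B) * M ^ j := by
  have h1 := card_cliq_thru A (fun _ => A) i #A (fun _ _ => le_rfl) x
  have h2 := card_cliq A (fun _ => A) i #A (fun _ _ => le_rfl)
  have h3 := card_cliq_thru B N j M hN x
  have h4 := card_cliq B N j M hN
  calc _ ≤ #((((cliq A (fun _ => A) i).filter fun Y => x ∈ Y) ×ˢ cliq B N j) ∪
          (cliq A (fun _ => A) i ×ˢ ((cliq B N j).filter fun Y => x ∈ Y))) := by
        refine card_le_card fun q hq => ?_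
        simp only [thru, fam, mem_filter, mem_product, mem_union] at hq ⊢
        tauto
    _ ≤ _ := card_union_le _ _
    _ ≤ #A ^ i * (#B * M ^ j) + #A * #A ^ i * M ^ j := by
        rw [card_product, card_product]
        exact Nat.add_le_add (Nat.mul_le_mul h1 h4) (Nat.mul_le_mul h2 h3)
    _ = _ := by ring

/-- Vertices of `B` joined to `y` through an edge (or a vertex) of `S`. -/
def N1 (S B : Finset V) (Q : Finset (Sym2 V)) (y : V) : Finset V :=
  (nb Q y S).biUnion fun u => (insert u (nb Q u S)).biUnion fun u' => nb Q u' B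

/-- Vertices of `B` with two neighbours in `S` in common with `y`. -/
def N2 (S B : Finset V) (Q : Finset (Sym2 V)) (y : V) : Finset V :=
  (nb Q y S).biUnion fun u => ((nb Q y S).erase u).biUnion fun u' => cod Q u u' B

/-- Common neighbours in `B` of `u` and a vertex of `S` at distance two. -/
def N0 (S B : Finset V) (Q : Finset (Sym2 V)) (u : V) : Finset V :=
  (nb Q u S).biUnion fun w => ((nb Q w S).erase u).biUnion fun u' => cod Q u u' B

/-- Good first exposure. -/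
structure Good1 (S B : Finset V) (u L D c k : ℕ) (l : ℝ) (Q : Finset (Sym2 V)) : Prop where
  indep : ∀ q ∈ S.powerset ×ˢ S.powerset, #q.1 = u → #q.2 = u → Disjoint q.1 q.2 →
    ¬ Disjoint (K q.1 q.2) Q
  noK : ∀ q ∈ S.powersetCard 2 ×ˢ S.powersetCard 3, Disjoint q.1 q.2 → ¬ K q.1 q.2 ⊆ Q
  degS : ∀ x, #(nb Q x S) ≤ L
  degB : ∀ x, #(nb Q x B) ≤ D
  codeg : ∀ x ∈ S, ∀ x' ∈ S, x ≠ x' → #(cod Q x x' B) ≤ c
  low : ∀ x ∈ S, l ≤ #(nb Q x B)
  few : ∀ x, ¬ Many (fam S B 2 (fun _ => B) 1) k Q x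

/-- Good second exposure. -/
structure Good2 (S A B : Finset V) (k : ℕ) (l : ℝ) (Q R : Finset (Sym2 V)) : Prop where
  lowA : ∀ x ∈ A, l ≤ #(nb R x B)
  lowB : ∀ x ∈ B, l ≤ #(nb R x A)
  few1 : ∀ x, ¬ Many (fam A B 1 (N1 S B Q) 2) k R x
  few2 : ∀ x, ¬ Many (fam A B 0 (N2 S B Q) 1) k R x

section
variable {S A B : Finset V} {u L D c k : ℕ} {l : ℝ} {Q R : Finset (Sym2 V)}

theorem Good1.card_N1 (g : Good1 S B u L D c k l Q) (y : V) : #(N1 S B Q y) ≤ L * ((L + 1) * D) := by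
  refine (card_biUnion_le_card_mul _ _ ((L + 1) * D) fun u _ => ?_).trans
    (Nat.mul_le_mul_right _ (g.degS y))
  refine (card_biUnion_le_card_mul _ _ D fun u' _ => g.degB u').trans (Nat.mul_le_mul_right _ ?_)
  exact (card_insert_le _ _).trans (Nat.succ_le_succ (g.degS u))

theorem Good1.card_N2 (g : Good1 S B u L D c k l Q) (y : V) : #(N2 S B Q y) ≤ L * (L * c) := by
  refine (card_biUnion_le_card_mul _ _ (L * c) fun u hu => ?_).trans
    (Nat.mul_le_mul_right _ (g.degS y))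
  refine (card_biUnion_le_card_mul _ _ c fun u' hu' => ?_).trans (Nat.mul_le_mul_right _ ?_)
  · exact g.codeg u (mem_nb.mp hu).1 u' (mem_nb.mp (mem_erase.mp hu').2).1 (mem_erase.mp hu').1.symm
  · exact card_erase_le.trans (g.degS y)

theorem Good1.card_N0 (g : Good1 S B u L D c k l Q) {x : V} (hx : x ∈ S) :
    #(N0 S B Q x) ≤ L * (L * c) := by
  refine (card_biUnion_le_card_mul _ _ (L * c) fun w _ => ?_).trans
    (Nat.mul_le_mul_right _ (g.degS x))
  refine (card_biUnion_le_card_mul _ _ c fun u' hu' => ?_).trans (Nat.mul_le_mul_right _ ?_)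
  · exact g.codeg x hx u' (mem_nb.mp (mem_erase.mp hu').2).1 (mem_erase.mp hu').1.symm
  · exact card_erase_le.trans (g.degS w)

/-- A graph contains no subdivided `K_{3,3}`. -/
def NoSub (G : SimpleGraph V) : Prop :=
  ∀ a1 a2 a3 b1 b2 b3 z : V, a1 ≠ a2 → a1 ≠ a3 → a2 ≠ a3 → b1 ≠ b2 → b1 ≠ b3 → b2 ≠ b3 →
    G.Adj a1 z → G.Adj z b1 → G.Adj a1 b2 → G.Adj a1 b3 → G.Adj a2 b1 → G.Adj a2 b2 → G.Adj a2 b3 →
    G.Adj a3 b1 → G.Adj a3 b2 → G.Adj a3 b3 → False

theorem noSub_of {G : SimpleGraph V} (S B : Finset V)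
    (hS : ∀ x y, G.Adj x y → x ∉ B → y ∉ B → x ∈ S)
    (hB : ∀ x y, G.Adj x y → x ∈ B → y ∉ B)
    (h0 : ∀ y x x' w, y ∈ B → x ∈ S → x' ∈ S → w ∈ S → x ≠ x' → G.Adj y x → G.Adj y x' →
      G.Adj w x → G.Adj w x' → False)
    (h1 : ∀ a2 a3 b1 b2 b3, a2 ∈ S → a3 ∈ S → b1 ∈ S → b2 ∈ S → b3 ∈ S → a2 ≠ a3 → b1 ≠ b2 →
      b1 ≠ b3 → b2 ≠ b3 → G.Adj a2 b1 → G.Adj a2 b2 → G.Adj a2 b3 →
      G.Adj a3 b1 → G.Adj a3 b2 → G.Adj a3 b3 → False)
    (h2 : ∀ a1 a2 a3 b1 b2 b3 z : V, a1 ∈ B → a2 ∈ B → a3 ∈ B → z ∈ S → b1 ∈ S →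
      a1 ≠ a2 → a1 ≠ a3 → a2 ≠ a3 → b1 ≠ b2 → b1 ≠ b3 → b2 ≠ b3 →
      G.Adj a1 z → G.Adj z b1 → G.Adj a1 b2 → G.Adj a1 b3 → G.Adj a2 b1 → G.Adj a2 b2 →
      G.Adj a2 b3 → G.Adj a3 b1 → G.Adj a3 b2 → G.Adj a3 b3 → False) : NoSub G := by
  have key : ∀ a1 a2 a3 b1 b2 b3 z : V, a2 ∈ B →
      a1 ≠ a2 → a1 ≠ a3 → a2 ≠ a3 → b1 ≠ b2 → b1 ≠ b3 → b2 ≠ b3 →
      G.Adj a1 z → G.Adj z b1 → G.Adj a1 b2 → G.Adj a1 b3 → G.Adj a2 b1 → G.Adj a2 b2 →
      G.Adj a2 b3 → G.Adj a3 b1 → G.Adj a3 b2 → G.Adj a3 b3 → False := by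
    intro a1 a2 a3 b1 b2 b3 z ha2 n12 n13 n23 m12 m13 m23 e1z ez1 e12 e13 e21 e22 e23 e31 e32 e33
    have hb1 := hB _ _ e21 ha2
    have hb2 := hB _ _ e22 ha2
    have hb3 := hB _ _ e23 ha2
    by_cases ha3 : a3 ∈ B
    · by_cases ha1 : a1 ∈ B
      · have hz := hB _ _ e1z ha1
        exact h2 a1 a2 a3 b1 b2 b3 z ha1 ha2 ha3 (hS _ _ ez1 hz hb1) (hS _ _ ez1.symm hb1 hz)
          n12 n13 n23 m12 m13 m23 e1z ez1 e12 e13 e21 e22 e23 e31 e32 e33
      · exact h0 a2 b2 b3 a1 ha2 (hS _ _ e12.symm hb2 ha1) (hS _ _ e13.symm hb3 ha1)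
          (hS _ _ e12 ha1 hb2) m23 e22 e23 e12 e13
    · exact h0 a2 b1 b2 a3 ha2 (hS _ _ e31.symm hb1 ha3) (hS _ _ e32.symm hb2 ha3)
        (hS _ _ e31 ha3 hb1) m12 e21 e22 e31 e32
  intro a1 a2 a3 b1 b2 b3 z n12 n13 n23 m12 m13 m23 e1z ez1 e12 e13 e21 e22 e23 e31 e32 e33
  by_cases ha2 : a2 ∈ B
  · exact key a1 a2 a3 b1 b2 b3 z ha2 n12 n13 n23 m12 m13 m23 e1z ez1 e12 e13 e21 e22 e23 e31 e32 e33
  by_cases ha3 : a3 ∈ B
  · exact key a1 a3 a2 b1 b2 b3 z ha3 n13 n12 n23.symm m12 m13 m23 e1z ez1 e12 e13 e31 e32 e33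
      e21 e22 e23
  by_cases hb2 : b2 ∈ B
  · exact key b1 b2 b3 a1 a2 a3 z hb2 m12 m13 m23 n12 n13 n23 ez1.symm e1z.symm e21.symm e31.symm
      e12.symm e22.symm e32.symm e13.symm e23.symm e33.symm
  by_cases hb3 : b3 ∈ B
  · exact key b1 b3 b2 a1 a2 a3 z hb3 m13 m12 m23.symm n12 n13 n23 ez1.symm e1z.symm e21.symm
      e31.symm e13.symm e23.symm e33.symm e12.symm e22.symm e32.symm
  have s2 := hS _ _ e22 ha2 hb2
  have s3 := hS _ _ e32 ha3 hb2
  have t2 := hS _ _ e22.symm hb2 ha2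
  have t3 := hS _ _ e23.symm hb3 ha2
  by_cases hb1 : b1 ∈ B
  · exact h0 b1 a2 a3 b2 hb1 s2 s3 t2 n23 e21.symm e31.symm e22.symm e32.symm
  · exact h1 a2 a3 b1 b2 b3 s2 s3 (hS _ _ e21.symm hb1 ha2) t2 t3 n23 m12 m13 m23
      e21 e22 e23 e31 e32 e33

theorem card_sdiff_two (s t t' : Finset V) : #s ≤ #((s \ t) \ t') + #t + #t' := by
  have h1 := le_card_sdiff t s
  have h2 := le_card_sdiff t' (s \ t)
  omega

theorem exists_graph [Fintype V] (hSA : Disjoint S A) (hSB : Disjoint S B) (hAB : Disjoint A B)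
    (hcov : ∀ x, x ∈ S ∨ x ∈ A ∨ x ∈ B) (g : Good1 S B u L D c k l Q) (g' : Good2 S A B k l Q R)
    (C : ℕ) (hC : C * (2 * u) < #S) :
    ∃ G : SimpleGraph V, (∀ x y, G.Adj x y → s(x, y) ∈ Q ∪ R) ∧ NoSub G ∧
      (∀ x, l ≤ ((G.neighborSet x).ncard : ℝ) + (L * (L * c) + 8 * k : ℕ)) ∧ ¬ G.Colorable C := by
  classical
  obtain ⟨D3, hD3, hD3'⟩ := exists_clean (fam S B 2 (fun _ => B) 1) k _ (by norm_num)
    (card_K_fam hSB) Q
  obtain ⟨D1, hD1, hD1'⟩ := exists_clean (fam A B 1 (N1 S B Q) 2) k _ (by norm_num)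
    (card_K_fam hAB) R
  obtain ⟨D2, hD2, hD2'⟩ := exists_clean (fam A B 0 (N2 S B Q) 1) k _ (by norm_num)
    (card_K_fam hAB) R
  let E : V → V → Prop := fun x y => (x ∈ S ∧ y ∈ S ∧ s(x, y) ∈ Q) ∨
    (x ∈ S ∧ y ∈ B ∧ s(x, y) ∈ Q ∧ y ∉ N0 S B Q x ∧ s(x, y) ∉ D3) ∨
    (x ∈ A ∧ y ∈ B ∧ s(x, y) ∈ R ∧ s(x, y) ∉ D1 ∧ s(x, y) ∉ D2)
  have sa : ∀ {x}, x ∈ S → x ∉ A := fun h => disjoint_left.mp hSA h
  have sb : ∀ {x}, x ∈ S → x ∉ B := fun h => disjoint_left.mp hSB h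
  have ab : ∀ {x}, x ∈ A → x ∉ B := fun h => disjoint_left.mp hAB h
  let G : SimpleGraph V := SimpleGraph.fromRel E
  have hG : ∀ x y, G.Adj x y ↔ x ≠ y ∧ (E x y ∨ E y x) := fun x y => SimpleGraph.fromRel_adj E x y
  have fSS : ∀ {x y}, G.Adj x y → x ∉ B → y ∉ B → x ∈ S ∧ y ∈ S ∧ s(x, y) ∈ Q := by
    intro x y h hx hy
    rcases ((hG x y).mp h).2 with (h | h | h) | (h | h | h)
    · exact h
    · exact absurd h.2.1 hy
    · exact absurd h.2.1 hy
    · exact ⟨h.2.1, h.1, Sym2.eq_swap ▸ h.2.2⟩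
    · exact absurd h.2.1 hx
    · exact absurd h.2.1 hx
  have fB : ∀ {x y}, G.Adj x y → x ∈ B → y ∉ B := by
    intro x y h hx hy
    rcases ((hG x y).mp h).2 with (h | h | h) | (h | h | h)
    · exact sb h.1 hx
    · exact sb h.1 hx
    · exact ab h.1 hx
    · exact sb h.1 hy
    · exact sb h.1 hy
    · exact ab h.1 hy
  have fSB : ∀ {x y}, G.Adj y x → x ∈ S → y ∈ B →
      s(x, y) ∈ Q ∧ y ∉ N0 S B Q x ∧ s(x, y) ∉ D3 := by
    intro x y h hx hy
    rcases ((hG y x).mp h).2 with (h | h | h) | (h | h | h)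
    · exact absurd hy (sb h.1)
    · exact absurd hy (sb h.1)
    · exact absurd hy (ab h.1)
    · exact absurd hy (sb h.2.1)
    · exact h.2.2
    · exact absurd h.1 (sa hx)
  have fAB : ∀ {x y}, G.Adj y x → x ∈ A → y ∈ B →
      s(x, y) ∈ R ∧ s(x, y) ∉ D1 ∧ s(x, y) ∉ D2 := by
    intro x y h hx hy
    rcases ((hG y x).mp h).2 with (h | h | h) | (h | h | h)
    · exact absurd hy (sb h.1)
    · exact absurd hy (sb h.1)
    · exact absurd hy (ab h.1)
    · exact absurd hy (sb h.2.1)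
    · exact absurd hx (sa h.1)
    · exact h.2.2
  refine ⟨G, ?_, ?_, ?_, ?_⟩
  · intro x y h
    rcases ((hG x y).mp h).2 with (h | h | h) | (h | h | h)
    · exact mem_union_left _ h.2.2
    · exact mem_union_left _ h.2.2.1
    · exact mem_union_right _ h.2.2.1
    · exact mem_union_left _ (Sym2.eq_swap ▸ h.2.2)
    · exact mem_union_left _ (Sym2.eq_swap ▸ h.2.2.1)
    · exact mem_union_right _ (Sym2.eq_swap ▸ h.2.2.1)
  · refine noSub_of S B (fun x y h hx hy => (fSS h hx hy).1) (fun x y h hx => fB h hx) ?_ ?_ ?_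
    · intro y x x' w hy hx hx' hw hne e1 e2 e3 e4
      refine (fSB e1 hx hy).2.1 ?_
      refine mem_biUnion.mpr ⟨w, mem_nb.mpr ⟨hw, (fSS e3.symm (sb hx) (sb hw)).2.2⟩, ?_⟩
      refine mem_biUnion.mpr ⟨x', mem_erase.mpr ⟨hne.symm,
        mem_nb.mpr ⟨hx', (fSS e4 (sb hw) (sb hx')).2.2⟩⟩, ?_⟩
      exact mem_cod.mpr ⟨hy, (fSB e1 hx hy).1, (fSB e2 hx' hy).1⟩
    · intro a2 a3 b1 b2 b3 s2 s3 t1 t2 t3 n23 m12 m13 m23 e21 e22 e23 e31 e32 e33
      have hadj : ∀ x ∈ ({a2, a3} : Finset V), ∀ y ∈ ({b1, b2, b3} : Finset V), G.Adj x y := by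
        simp only [mem_insert, mem_singleton, forall_eq_or_imp, forall_eq]
        exact ⟨⟨e21, e22, e23⟩, e31, e32, e33⟩
      have hX : ({a2, a3} : Finset V) ⊆ S := by simp [insert_subset_iff, *]
      have hY : ({b1, b2, b3} : Finset V) ⊆ S := by simp [insert_subset_iff, *]
      refine g.noK ({a2, a3}, {b1, b2, b3}) ?_ ?_ ?_
      · rw [mem_product, mem_powersetCard, mem_powersetCard]
        exact ⟨⟨hX, card_pair n23⟩, hY, card_eq_three.mpr ⟨b1, b2, b3, m12, m13, m23, rfl⟩⟩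
      · exact disjoint_left.mpr fun x hx hx' => (hadj x hx x hx').ne rfl
      · exact K_subset_iff.mpr fun x hx y hy => (fSS (hadj x hx y hy) (sb (hX hx)) (sb (hY hy))).2.2
    · have case2 : ∀ a2 a3 b1 b2 b3 : V, a2 ∈ B → a3 ∈ B → b1 ∈ S → b2 ∈ S → b3 ∈ A → a2 ≠ a3 →
          b1 ≠ b2 → G.Adj a2 b1 → G.Adj a2 b2 → G.Adj a2 b3 → G.Adj a3 b1 → G.Adj a3 b2 →
          G.Adj a3 b3 → False := by
        intro a2 a3 b1 b2 b3 h2 h3 t1 t2 t3 n23 m12 e21 e22 e23 e31 e32 e33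
        have hN : ∀ y y', y ∈ B → y' ∈ B → G.Adj y b1 → G.Adj y b2 → G.Adj y' b1 → G.Adj y' b2 →
            y' ∈ N2 S B Q y := by
          intro y y' hy hy' f1 f2 f3 f4
          refine mem_biUnion.mpr ⟨b1, mem_nb.mpr ⟨t1, Sym2.eq_swap ▸ (fSB f1 t1 hy).1⟩, ?_⟩
          refine mem_biUnion.mpr ⟨b2, mem_erase.mpr ⟨m12.symm,
            mem_nb.mpr ⟨t2, Sym2.eq_swap ▸ (fSB f2 t2 hy).1⟩⟩, ?_⟩
          exact mem_cod.mpr ⟨hy', (fSB f3 t1 hy').1, (fSB f4 t2 hy').1⟩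
        have hall : ∀ y ∈ ({a2, a3} : Finset V), y ∈ B ∧ G.Adj y b1 ∧ G.Adj y b2 ∧ G.Adj y b3 := by
          simp only [mem_insert, mem_singleton, forall_eq_or_imp, forall_eq]
          exact ⟨⟨h2, e21, e22, e23⟩, h3, e31, e32, e33⟩
        refine hD2 ({b3}, {a2, a3}) (mem_fam.mpr ⟨by simpa using t3, card_singleton _,
          fun y hy => (hall y hy).1, card_pair n23, fun y hy y' hy' => ?_⟩) ?_
        · have h' := hall y' (mem_of_mem_erase hy')
          exact hN y y' (hall y hy).1 h'.1 (hall y hy).2.1 (hall y hy).2.2.1 h'.2.1 h'.2.2.1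
        · refine K_subset_iff.mpr fun x hx y hy => ?_
          obtain rfl : x = b3 := mem_singleton.mp hx
          have := fAB (hall y hy).2.2.2 t3 (hall y hy).1
          exact mem_sdiff.mpr ⟨this.1, this.2.2⟩
      intro a1 a2 a3 b1 b2 b3 z h1 h2 h3 hz t1 n12 n13 n23 m12 m13 m23 e1z ez1 e12 e13 e21 e22
        e23 e31 e32 e33
      rcases hcov b2 with t2 | t2 | t2
      · rcases hcov b3 with t3 | t3 | t3
        · have hall : ∀ x ∈ ({b1, b2, b3} : Finset V), x ∈ S ∧ G.Adj a2 x ∧ G.Adj a3 x := by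
            simp only [mem_insert, mem_singleton, forall_eq_or_imp, forall_eq]
            exact ⟨⟨t1, e21, e31⟩, ⟨t2, e22, e32⟩, t3, e23, e33⟩
          have hY : ({a2, a3} : Finset V) ⊆ B := by simp [insert_subset_iff, *]
          refine hD3 ({b1, b2, b3}, {a2, a3}) (mem_fam.mpr ⟨fun x hx => (hall x hx).1,
            card_eq_three.mpr ⟨b1, b2, b3, m12, m13, m23, rfl⟩, hY, card_pair n23,
            fun y _ => (erase_subset _ _).trans hY⟩) ?_
          refine K_subset_iff.mpr fun x hx y hy => ?_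
          have hyx : G.Adj y x := by
            rcases mem_insert.mp hy with rfl | hy
            · exact (hall x hx).2.1
            · obtain rfl := mem_singleton.mp hy; exact (hall x hx).2.2
          have := fSB hyx (hall x hx).1 (hY hy)
          exact mem_sdiff.mpr ⟨this.1, this.2.2⟩
        · exact case2 a2 a3 b1 b2 b3 h2 h3 t1 t2 t3 n23 m12 e21 e22 e23 e31 e32 e33
        · exact fB e23 h2 t3
      · rcases hcov b3 with t3 | t3 | t3
        · exact case2 a2 a3 b1 b3 b2 h2 h3 t1 t3 t2 n23 m13 e21 e23 e22 e31 e33 e32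
        · have hzb : s(z, b1) ∈ Q := (fSS ez1 (sb hz) (sb t1)).2.2
          have hall : ∀ y ∈ ({a1, a2, a3} : Finset V), y ∈ B ∧ G.Adj y b2 ∧ G.Adj y b3 ∧
              (G.Adj y z ∨ G.Adj y b1) := by
            simp only [mem_insert, mem_singleton, forall_eq_or_imp, forall_eq]
            exact ⟨⟨h1, e12, e13, Or.inl e1z⟩, ⟨h2, e22, e23, Or.inr e21⟩, h3, e32, e33, Or.inr e31⟩
          have hN : ∀ y y' v v', y ∈ B → y' ∈ B → v ∈ S → v' ∈ S → G.Adj y v → G.Adj y' v' →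
              (v' = v ∨ s(v, v') ∈ Q) → y' ∈ N1 S B Q y := by
            intro y y' v v' hy hy' hv hv' f1 f2 f3
            refine mem_biUnion.mpr ⟨v, mem_nb.mpr ⟨hv, Sym2.eq_swap ▸ (fSB f1 hv hy).1⟩, ?_⟩
            refine mem_biUnion.mpr ⟨v', ?_, mem_nb.mpr ⟨hy', (fSB f2 hv' hy').1⟩⟩
            exact mem_insert.mpr (f3.imp id fun h => mem_nb.mpr ⟨hv', h⟩)
          have hX : ({b2, b3} : Finset V) ⊆ A := by simp [insert_subset_iff, *]
          refine hD1 ({b2, b3}, {a1, a2, a3}) (mem_fam.mpr ⟨hX, card_pair m23,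
            fun y hy => (hall y hy).1, card_eq_three.mpr ⟨a1, a2, a3, n12, n13, n23, rfl⟩,
            fun y hy y' hy' => ?_⟩) ?_
          · obtain ⟨p1, -, -, p2⟩ := hall y hy
            obtain ⟨q1, -, -, q2⟩ := hall y' (mem_of_mem_erase hy')
            rcases p2 with p2 | p2 <;> rcases q2 with q2 | q2
            · exact hN y y' z z p1 q1 hz hz p2 q2 (Or.inl rfl)
            · exact hN y y' z b1 p1 q1 hz t1 p2 q2 (Or.inr hzb)
            · exact hN y y' b1 z p1 q1 t1 hz p2 q2 (Or.inr (Sym2.eq_swap ▸ hzb))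
            · exact hN y y' b1 b1 p1 q1 t1 t1 p2 q2 (Or.inl rfl)
          · refine K_subset_iff.mpr fun x hx y hy => ?_
            have hyx : G.Adj y x := by
              rcases mem_insert.mp hx with rfl | hx
              · exact (hall y hy).2.1
              · obtain rfl := mem_singleton.mp hx; exact (hall y hy).2.2.1
            have := fAB hyx (hX hx) (hall y hy).1
            exact mem_sdiff.mpr ⟨this.1, this.2.1⟩
        · exact fB e23 h2 t3
      · exact fB e22 h2 t2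
  · intro x
    have key : ∀ s t t' : Finset V, (∀ y ∈ (s \ t) \ t', G.Adj x y) → l ≤ #s →
        #t + #t' ≤ L * (L * c) + 8 * k →
        l ≤ ((G.neighborSet x).ncard : ℝ) + (L * (L * c) + 8 * k : ℕ) := by
      intro s t t' h1 h2 h3
      have h4 := card_sdiff_two s t t'
      have h5 : #((s \ t) \ t') ≤ (G.neighborSet x).ncard := by
        rw [← Set.ncard_coe_finset]
        exact Set.ncard_le_ncard (fun y hy => h1 y hy) (Set.toFinite _)
      refine h2.trans ?_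
      have : #s ≤ (G.neighborSet x).ncard + (L * (L * c) + 8 * k) := by omega
      exact_mod_cast this
    rcases hcov x with hx | hx | hx
    · refine key (nb Q x B) (N0 S B Q x) (nb D3 x B) ?_ (g.low x hx) ?_
      · intro y hy
        simp only [mem_sdiff, mem_nb] at hy
        refine (hG x y).mpr ⟨fun h => sb hx (h ▸ hy.1.1.1), Or.inl (Or.inr (Or.inl ?_))⟩
        exact ⟨hx, hy.1.1.1, hy.1.1.2, hy.1.2, fun h => hy.2 ⟨hy.1.1.1, h⟩⟩
      · have h1 := g.card_N0 hx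
        have h2 := hD3' x (g.few x) B
        omega
    · refine key (nb R x B) (nb D1 x B) (nb D2 x B) ?_ (g'.lowA x hx) ?_
      · intro y hy
        simp only [mem_sdiff, mem_nb] at hy
        refine (hG x y).mpr ⟨fun h => ab hx (h ▸ hy.1.1.1), Or.inl (Or.inr (Or.inr ?_))⟩
        exact ⟨hx, hy.1.1.1, hy.1.1.2, fun h => hy.1.2 ⟨hy.1.1.1, h⟩, fun h => hy.2 ⟨hy.1.1.1, h⟩⟩
      · have h1 := hD1' x (g'.few1 x) B
        have h2 := hD2' x (g'.few2 x) B
        omega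
    · refine key (nb R x A) (nb D1 x A) (nb D2 x A) ?_ (g'.lowB x hx) ?_
      · intro y hy
        simp only [mem_sdiff, mem_nb] at hy
        refine (hG x y).mpr ⟨fun h => ab hy.1.1.1 (h ▸ hx), Or.inr (Or.inr (Or.inr ?_))⟩
        rw [Sym2.eq_swap]
        exact ⟨hy.1.1.1, hx, hy.1.1.2, fun h => hy.1.2 ⟨hy.1.1.1, h⟩, fun h => hy.2 ⟨hy.1.1.1, h⟩⟩
      · have h1 := hD1' x (g'.few1 x) A
        have h2 := hD2' x (g'.few2 x) A
        omega
  · rintro ⟨f⟩
    obtain ⟨i, -, hi⟩ := exists_lt_card_fiber_of_mul_lt_card_of_maps_to (s := S)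
      (t := (univ : Finset (Fin C))) (f := f) (n := 2 * u) (fun _ _ => mem_univ _)
      (by simpa using hC)
    obtain ⟨U1, hU1, c1⟩ := exists_subset_card_eq (s := S.filter fun x => f x = i) (n := u)
      (by omega)
    obtain ⟨U2, hU2, c2⟩ := exists_subset_card_eq (s := (S.filter fun x => f x = i) \ U1) (n := u)
      (by rw [card_sdiff_of_subset hU1]; omega)
    have hU2' := hU2.trans sdiff_subset
    have hd : Disjoint U1 U2 := disjoint_sdiff.mono_right hU2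
    refine g.indep (U1, U2) ?_ c1 c2 hd ?_
    · rw [mem_product, mem_powerset, mem_powerset]
      exact ⟨hU1.trans (filter_subset _ _), hU2'.trans (filter_subset _ _)⟩
    · refine disjoint_left.mpr fun e he heQ => ?_
      obtain ⟨x, hx, y, hy, rfl⟩ := mem_K'.mp he
      have hx' := mem_filter.mp (hU1 hx)
      have hy' := mem_filter.mp (hU2' hy)
      have hadj : G.Adj x y := (hG x y).mpr ⟨fun h => disjoint_left.mp hd hx (h ▸ hy),
        Or.inl (Or.inl ⟨hx'.1, hy'.1, heQ⟩)⟩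
      exact f.valid hadj (hx'.2.trans hy'.2.symm)

end

end Pool.Agent.P.MP_4bfc47_co
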