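import Pool.Agent.P.MP_4bfc47_co.Asym

/-! Link with Mathlib's binomial random graph, and small graph lemmas. -/

set_option autoImplicit false
set_option linter.unusedSectionVars false

namespace Pool.Agent.P.MP_4bfc47_co
open Finset Filter Topology MeasureTheory

theorem real_le_Pr {V : Type} [Fintype V] [DecidableEq V] (p : unitInterval)
    (E : SimpleGraph V → Prop) (E' : Finset (Sym2 V) → Prop)
    (h : ∀ (Γ : SimpleGraph V) (R : Finset (Sym2 V)), (R : Set (Sym2 V)) = Γ.edgeSet → E Γ → E' R) :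
    (SimpleGraph.binomialRandom V p).real {Γ | E Γ} ≤
      Pr (⊤ : SimpleGraph V).edgeFinset (p : ℝ) E' := by
  classical
  have h0 : (0 : ℝ) ≤ p := p.2.1
  have h1 : (p : ℝ) ≤ 1 := p.2.2
  have e1 : {Γ | E Γ} = ⋃ Γ ∈ (univ.filter E), ({Γ} : Set (SimpleGraph V)) := by
    ext Γ; simp
  rw [e1]
  refine (measureReal_biUnion_finset_le _ _).trans ?_
  have e2 : ∀ Γ : SimpleGraph V, (SimpleGraph.binomialRandom V p).real {Γ} =
      (p : ℝ) ^ #Γ.edgeFinset *
        (1 - (p : ℝ)) ^ (#(⊤ : SimpleGraph V).edgeFinset - #Γ.edgeFinset) := by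
    intro Γ
    rw [Measure.real, SimpleGraph.binomialRandom_singleton,
      SimpleGraph.card_edgeFinset_top_eq_card_choose_two, Nat.card_eq_fintype_card,
      ← SimpleGraph.coe_edgeFinset, Set.ncard_coe_finset]
    simp
  rw [sum_congr rfl fun Γ _ => e2 Γ]
  have e3 := sum_image (s := univ.filter E) (g := fun Γ : SimpleGraph V => Γ.edgeFinset)
    (f := fun R => (p : ℝ) ^ #R * (1 - (p : ℝ)) ^ (#(⊤ : SimpleGraph V).edgeFinset - #R))
    (fun Γ _ Γ' _ hh => SimpleGraph.edgeFinset_inj.mp hh)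
  rw [← e3, Pr, Ex]
  have hw : ∀ R : Finset (Sym2 V),
      0 ≤ (p : ℝ) ^ #R * (1 - (p : ℝ)) ^ (#(⊤ : SimpleGraph V).edgeFinset - #R) := fun R =>
    mul_nonneg (pow_nonneg h0 _) (pow_nonneg (sub_nonneg.mpr h1) _)
  refine le_trans (le_of_eq (sum_congr rfl fun R hR => ?_))
    (sum_le_sum_of_subset_of_nonneg (fun R hR => ?_) fun R _ _ => ?_)
  · obtain ⟨Γ, hΓ, rfl⟩ := mem_image.mp hR
    rw [if_pos (h Γ _ (SimpleGraph.coe_edgeFinset Γ) (mem_filter.mp hΓ).2), mul_one]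
  · obtain ⟨Γ, hΓ, rfl⟩ := mem_image.mp hR
    exact mem_powerset.mpr (SimpleGraph.edgeFinset_mono le_top)
  · refine mul_nonneg (hw R) ?_
    split_ifs <;> norm_num

/-- For every `C` and `ε` there are arbitrarily large admissible `m`. -/
theorem exists_m (C : ℕ) {ε : ℝ} (hε : 0 < ε) (n₀ : ℕ) :
    ∃ j m : ℕ, m = 2 * (C + 1) * j ∧ 6 * (C + 1) ≤ j ∧ 160065 ≤ 2 * ε * m ∧
      10 * ((m : ℝ) ^ 18 * Real.exp (-(ε ^ 2 * m))) ≤ 1 / 4 ∧ n₀ ≤ m ^ 17 := by
  have hm : Tendsto (fun j : ℕ => 2 * (C + 1) * j) atTop atTop :=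
    tendsto_id.const_mul_atTop' (by positivity)
  have hmr : Tendsto (fun j : ℕ => ((2 * (C + 1) * j : ℕ) : ℝ)) atTop atTop :=
    tendsto_natCast_atTop_atTop.comp hm
  have h1 : Tendsto (fun x : ℝ => 10 * (x ^ 18 * Real.exp (-(ε ^ 2 * x)))) atTop (𝓝 0) := by
    have h2 := (Real.tendsto_pow_mul_exp_neg_atTop_nhds_zero 18).comp
      (tendsto_id.const_mul_atTop (pow_pos hε 2))
    have h3 := h2.const_mul (10 * ((ε ^ 2) ^ 18)⁻¹)
    rw [mul_zero] at h3
    refine h3.congr fun x => ?_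
    simp only [Function.comp, id]
    field_simp
  have a1 := (h1.comp hmr).eventually_le_const (show (0 : ℝ) < 1 / 4 by norm_num)
  have a2 := (hmr.const_mul_atTop (show 0 < 2 * ε by positivity)).eventually_ge_atTop 160065
  have a3 := hm.eventually_ge_atTop n₀
  have a4 := eventually_ge_atTop (6 * (C + 1))
  obtain ⟨j, b1, b2, b3, b4⟩ := (a1.and (a2.and (a3.and a4))).exists
  exact ⟨j, _, rfl, b4, b2, b1, b3.trans (Nat.le_self_pow (by norm_num) _)⟩

theorem acyclic_of_rank {W : Type*} (G : SimpleGraph W) (f : W → ℕ)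
    (h : ∀ v a b, G.Adj v a → G.Adj v b → f a ≤ f v → f b ≤ f v → a = b) : G.IsAcyclic := by
  classical
  intro v c hc
  obtain ⟨w, hw, hmax⟩ := exists_max_image c.support.toFinset f
    ⟨v, List.mem_toFinset.mpr c.start_mem_support⟩
  obtain ⟨a, b, hab, hs⟩ := Set.ncard_eq_two.mp
    (hc.ncard_neighborSet_toSubgraph_eq_two (List.mem_toFinset.mp hw))
  have ha : c.toSubgraph.Adj w a := by
    rw [← SimpleGraph.Subgraph.mem_neighborSet, hs]; simp
  have hb : c.toSubgraph.Adj w b := by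
    rw [← SimpleGraph.Subgraph.mem_neighborSet, hs]; simp
  exact hab (h w a b ha.adj_sub hb.adj_sub
    (hmax a (List.mem_toFinset.mpr (c.mem_verts_toSubgraph.mp ha.snd_mem)))
    (hmax b (List.mem_toFinset.mpr (c.mem_verts_toSubgraph.mp hb.snd_mem))))

theorem not_acyclic_four {W : Type*} {G : SimpleGraph W} {a b c d : W} (h1 : G.Adj a b)
    (h2 : G.Adj b c) (h3 : G.Adj c d) (h4 : G.Adj d a) (hac : a ≠ c) (hbd : b ≠ d) :
    ¬ G.IsAcyclic := by
  intro h
  refine h (.cons h1 (.cons h2 (.cons h3 (.cons h4 .nil)))) ?_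
  have := h1.ne; have := h2.ne; have := h3.ne; have := h4.ne
  simp [SimpleGraph.Walk.isCycle_def, SimpleGraph.Walk.isTrail_def]
  grind

end Pool.Agent.P.MP_4bfc47_co
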