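import Mathlib

/-! Elementary probability on binomial random subsets of a finite set. -/

set_option autoImplicit false
set_option linter.unusedSectionVars false

namespace Pool.Agent.P.MP_4bfc47_co
open Finset

variable {α : Type*} [DecidableEq α]

/-- Expectation of `f R` for a `p`-random subset `R` of `Ω`. -/
noncomputable def Ex (Ω : Finset α) (p : ℝ) (f : Finset α → ℝ) : ℝ :=
  ∑ R ∈ Ω.powerset, p ^ #R * (1 - p) ^ (#Ω - #R) * f R

open Classical in
/-- Probability of an event. -/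
noncomputable def Pr (Ω : Finset α) (p : ℝ) (E : Finset α → Prop) : ℝ :=
  Ex Ω p fun R => if E R then 1 else 0

theorem Ex_empty (p : ℝ) (f : Finset α → ℝ) : Ex (∅ : Finset α) p f = f ∅ := by
  simp [Ex]

theorem Ex_insert {Ω : Finset α} {e : α} (he : e ∉ Ω) (p : ℝ) (f : Finset α → ℝ) :
    Ex (insert e Ω) p f = p * Ex Ω p (fun R => f (insert e R)) + (1 - p) * Ex Ω p f := by
  unfold Ex
  rw [sum_powerset_insert he, card_insert_of_notMem he, mul_sum, mul_sum, add_comm]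
  congr 1
  · refine sum_congr rfl fun R hR => ?_
    have h1 : e ∉ R := fun h => he (mem_powerset.mp hR h)
    rw [card_insert_of_notMem h1, Nat.add_sub_add_right]; ring
  · refine sum_congr rfl fun R hR => ?_
    have h1 : #R ≤ #Ω := card_le_card (mem_powerset.mp hR)
    rw [Nat.succ_sub h1, Nat.succ_eq_add_one]; ring

theorem Ex_congr {Ω : Finset α} {p : ℝ} {f g : Finset α → ℝ} (h : ∀ R ⊆ Ω, f R = g R) :
    Ex Ω p f = Ex Ω p g :=
  sum_congr rfl fun R hR => by rw [h R (mem_powerset.mp hR)]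

theorem Ex_mono {Ω : Finset α} {p : ℝ} (h0 : 0 ≤ p) (h1 : p ≤ 1) {f g : Finset α → ℝ}
    (h : ∀ R ⊆ Ω, f R ≤ g R) : Ex Ω p f ≤ Ex Ω p g :=
  sum_le_sum fun R hR => mul_le_mul_of_nonneg_left (h R (mem_powerset.mp hR))
    (mul_nonneg (pow_nonneg h0 _) (pow_nonneg (sub_nonneg.mpr h1) _))

theorem Ex_const (Ω : Finset α) (p c : ℝ) : Ex Ω p (fun _ => c) = c := by
  induction Ω using Finset.induction_on with
  | empty => exact Ex_empty _ _
  | insert e Ω he ih => rw [Ex_insert he, ih]; ring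

theorem Ex_add (Ω : Finset α) (p : ℝ) (f g : Finset α → ℝ) :
    Ex Ω p (fun R => f R + g R) = Ex Ω p f + Ex Ω p g := by
  simp only [Ex, mul_add, sum_add_distrib]

theorem Ex_mul (Ω : Finset α) (p c : ℝ) (f : Finset α → ℝ) :
    Ex Ω p (fun R => c * f R) = c * Ex Ω p f := by
  simp only [Ex, mul_sum]
  exact sum_congr rfl fun R _ => by ring

theorem Ex_sum {ι : Type*} (Ω : Finset α) (p : ℝ) (J : Finset ι) (f : ι → Finset α → ℝ) :
    Ex Ω p (fun R => ∑ i ∈ J, f i R) = ∑ i ∈ J, Ex Ω p (f i) := by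
  simp only [Ex, mul_sum]
  exact sum_comm

theorem Ex_union {Ω₁ Ω₂ : Finset α} (h : Disjoint Ω₁ Ω₂) (p : ℝ) (f : Finset α → ℝ) :
    Ex (Ω₁ ∪ Ω₂) p f = Ex Ω₁ p fun Q => Ex Ω₂ p fun R => f (Q ∪ R) := by
  induction Ω₁ using Finset.induction_on generalizing f with
  | empty => simp [Ex_empty]
  | insert e Ω he ih =>
    have h2 : Disjoint Ω Ω₂ := h.mono_left (subset_insert _ _)
    have h3 : e ∉ Ω ∪ Ω₂ := by
      rw [mem_union, not_or]
      exact ⟨he, disjoint_left.mp h (mem_insert_self _ _)⟩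
    rw [insert_union, Ex_insert h3, Ex_insert he, ih h2, ih h2]
    simp only [insert_union]

/-- Product formula. -/
theorem Ex_pow (Ω : Finset α) (p a b : ℝ) (F : Finset α) (hF : F ⊆ Ω) :
    Ex Ω p (fun R => a ^ #(F ∩ R) * b ^ #(F \ R)) = (p * a + (1 - p) * b) ^ #F := by
  have key : ∀ G : Finset α, Ex G p (fun R => a ^ #R * b ^ #(G \ R)) = (p * a + (1 - p) * b) ^ #G := by
    intro G
    rw [← prod_const, prod_add]
    refine sum_congr rfl fun R hR => ?_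
    beta_reduce
    rw [prod_const, prod_const, card_sdiff_of_subset (mem_powerset.mp hR), mul_pow, mul_pow]
    ring
  rw [← union_sdiff_of_subset hF, Ex_union disjoint_sdiff, ← key F]
  refine Ex_congr fun Q hQ => ?_
  rw [← Ex_const (Ω \ F) p (a ^ #Q * b ^ #(F \ Q))]
  refine Ex_congr fun R hR => ?_
  have hd : Disjoint F R := (disjoint_sdiff (s := F) (t := Ω)).mono_right hR
  have e1 : F ∩ (Q ∪ R) = Q := by
    rw [inter_union_distrib_left, disjoint_iff_inter_eq_empty.mp hd, union_empty,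
      inter_eq_right.mpr hQ]
  have e2 : F \ (Q ∪ R) = F \ Q := by
    rw [sdiff_union_distrib, hd.sdiff_eq_left, inter_eq_left.mpr sdiff_subset]
  rw [e1, e2]

section
variable {Ω : Finset α} {p : ℝ}

theorem Pr_mono (h0 : 0 ≤ p) (h1 : p ≤ 1) {E E' : Finset α → Prop}
    (h : ∀ R ⊆ Ω, E R → E' R) : Pr Ω p E ≤ Pr Ω p E' := by
  refine Ex_mono h0 h1 fun R hR => ?_
  by_cases hE : E R
  · simp [hE, h R hR hE]
  · simp only [hE, if_false]; split_ifs <;> norm_num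

theorem Pr_le_Ex (h0 : 0 ≤ p) (h1 : p ≤ 1) {E : Finset α → Prop} {f : Finset α → ℝ}
    (hf : ∀ R ⊆ Ω, 0 ≤ f R) (h : ∀ R ⊆ Ω, E R → 1 ≤ f R) : Pr Ω p E ≤ Ex Ω p f := by
  refine Ex_mono h0 h1 fun R hR => ?_
  by_cases hE : E R
  · simpa [hE] using h R hR hE
  · simpa [hE] using hf R hR

theorem Pr_nonneg (h0 : 0 ≤ p) (h1 : p ≤ 1) (E : Finset α → Prop) : 0 ≤ Pr Ω p E := by
  rw [← Ex_const Ω p 0]
  refine Ex_mono h0 h1 fun R _ => ?_
  split_ifs <;> norm_num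

theorem Pr_or_le (h0 : 0 ≤ p) (h1 : p ≤ 1) (E E' : Finset α → Prop) :
    Pr Ω p (fun R => E R ∨ E' R) ≤ Pr Ω p E + Pr Ω p E' := by
  unfold Pr
  rw [← Ex_add]
  refine Ex_mono h0 h1 fun R _ => ?_
  by_cases hE : E R <;> by_cases hE' : E' R <;> simp [hE, hE']

theorem Pr_exists_le (h0 : 0 ≤ p) (h1 : p ≤ 1) {ι : Type*} (J : Finset ι)
    (E : ι → Finset α → Prop) : Pr Ω p (fun R => ∃ i ∈ J, E i R) ≤ ∑ i ∈ J, Pr Ω p (E i) := by
  classical
  unfold Pr
  rw [← Ex_sum]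
  refine Pr_le_Ex h0 h1 (fun R _ => sum_nonneg fun i _ => by split_ifs <;> norm_num) ?_
  rintro R _ ⟨i, hi, hE⟩
  refine le_trans ?_ (single_le_sum (f := fun i => if E i R then (1 : ℝ) else 0)
    (fun i _ => by split_ifs <;> norm_num) hi)
  simp [hE]

theorem Pr_exists_le' (h0 : 0 ≤ p) (h1 : p ≤ 1) {ι : Type*} (J : Finset ι)
    (E : ι → Finset α → Prop) {δ : ℝ} (h : ∀ i ∈ J, Pr Ω p (E i) ≤ δ) :
    Pr Ω p (fun R => ∃ i ∈ J, E i R) ≤ #J * δ :=
  (Pr_exists_le h0 h1 J E).trans (by simpa using sum_le_card_nsmul J _ δ h)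

theorem Pr_subset_le (h0 : 0 ≤ p) (h1 : p ≤ 1) (F : Finset α) :
    Pr Ω p (fun R => F ⊆ R) ≤ p ^ #F := by
  by_cases hF : F ⊆ Ω
  · have := Ex_pow Ω p 1 0 F hF
    rw [mul_one, mul_zero, add_zero] at this
    rw [← this]
    refine Pr_le_Ex h0 h1 (fun R _ => by positivity) fun R _ h => ?_
    simp [sdiff_eq_empty_iff_subset.mpr h]
  · refine le_trans (Pr_mono h0 h1 (E' := fun _ => False) fun R hR h => hF (h.trans hR)) ?_
    simp only [Pr, if_false, Ex_const]; positivity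

theorem Pr_disjoint_le (h0 : 0 ≤ p) (h1 : p ≤ 1) (F : Finset α) (hF : F ⊆ Ω) :
    Pr Ω p (fun R => Disjoint F R) ≤ Real.exp (-(p * #F)) := by
  have := Ex_pow Ω p 0 1 F hF
  rw [mul_one, mul_zero, zero_add] at this
  refine le_trans (b := (1 - p) ^ #F) ?_ ?_
  · rw [← this]
    refine Pr_le_Ex h0 h1 (fun R _ => by positivity) fun R _ h => ?_
    simp [disjoint_iff_inter_eq_empty.mp h]
  · have h2 : 1 - p ≤ Real.exp (-p) := by have := Real.add_one_le_exp (-p); linarith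
    calc (1 - p) ^ #F ≤ Real.exp (-p) ^ #F := pow_le_pow_left₀ (by linarith) h2 _
      _ = _ := by rw [← Real.exp_nat_mul]; congr 1; ring

/-- Lower tail. -/
theorem Pr_lower (h0 : 0 ≤ p) (h1 : p ≤ 1) (F : Finset α) (hF : F ⊆ Ω) {ε : ℝ} (hε : 0 < ε)
    (hε1 : ε < 1) :
    Pr Ω p (fun R => (#(F ∩ R) : ℝ) ≤ (1 - ε) ^ 2 * p * #F) ≤ Real.exp (-(ε ^ 2 * p * #F)) := by
  have hθ : 0 < 1 - ε := by linarith
  have := Ex_pow Ω p (1 - ε) 1 F hF
  set c : ℝ := Real.exp (ε * (1 - ε) * p * #F) with hc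
  have hcpos : 0 < c := Real.exp_pos _
  refine le_trans (b := Ex Ω p fun R => c * ((1 - ε) ^ #(F ∩ R) * 1 ^ #(F \ R))) ?_ ?_
  · refine Pr_le_Ex h0 h1 (fun R _ => by positivity) fun R _ h => ?_
    have h2 : Real.exp (-(ε / (1 - ε))) ≤ 1 - ε := by
      have h3 := Real.add_one_le_exp (ε / (1 - ε))
      have h4 : ε / (1 - ε) + 1 = (1 - ε)⁻¹ := by field_simp; ring
      rw [h4] at h3
      rw [Real.exp_neg]
      exact inv_le_of_inv_le₀ hθ h3
    have h5 : Real.exp (-(ε / (1 - ε))) ^ #(F ∩ R) ≤ (1 - ε) ^ #(F ∩ R) :=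
      pow_le_pow_left₀ (Real.exp_pos _).le h2 _
    rw [one_pow, mul_one]
    refine le_trans ?_ (mul_le_mul_of_nonneg_left h5 hcpos.le)
    rw [← Real.exp_nat_mul, hc, ← Real.exp_add]
    apply Real.one_le_exp
    have h6 : (#(F ∩ R) : ℝ) * (ε / (1 - ε)) ≤ (1 - ε) ^ 2 * p * #F * (ε / (1 - ε)) :=
      mul_le_mul_of_nonneg_right h (by positivity)
    have h7 : (1 - ε) ^ 2 * p * #F * (ε / (1 - ε)) = ε * (1 - ε) * p * #F := by field_simp
    linarith
  · rw [Ex_mul, this]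
    have h2 : p * (1 - ε) + (1 - p) * 1 ≤ Real.exp (-(p * ε)) := by
      have := Real.add_one_le_exp (-(p * ε)); linarith
    have h3 : (p * (1 - ε) + (1 - p) * 1) ^ #F ≤ Real.exp (-(p * ε)) ^ #F :=
      pow_le_pow_left₀ (by nlinarith) h2 _
    refine le_trans (mul_le_mul_of_nonneg_left h3 hcpos.le) (le_of_eq ?_)
    rw [← Real.exp_nat_mul, hc, ← Real.exp_add]; congr 1; ring

/-- The Erdős–Tetali disjointness lemma. -/
theorem Pr_ET (h0 : 0 ≤ p) (h1 : p ≤ 1) {ι : Type*} [DecidableEq ι] (J : Finset ι)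
    (F : ι → Finset α) (k : ℕ) {μ : ℝ} (hμ : ∑ i ∈ J, p ^ #(F i) ≤ μ) :
    Pr Ω p (fun R => ∃ I ⊆ J, k ≤ #I ∧ (I : Set ι).PairwiseDisjoint F ∧ ∀ i ∈ I, F i ⊆ R)
      ≤ Real.exp (3 * μ - k) := by
  classical
  set 𝒥 := (J.powersetCard k).filter fun I : Finset ι => (I : Set ι).PairwiseDisjoint F with h𝒥
  have hE : Real.exp 1 ≤ 3 := by have := Real.exp_one_lt_d9; linarith
  calc _ ≤ Pr Ω p (fun R => ∃ I ∈ 𝒥, I.biUnion F ⊆ R) := by
        refine Pr_mono h0 h1 ?_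
        rintro R _ ⟨I, hI, hk, hd, hR⟩
        obtain ⟨I', hI', hc⟩ := exists_subset_card_eq hk
        refine ⟨I', ?_, biUnion_subset.mpr fun i hi => hR i (hI' hi)⟩
        rw [h𝒥, mem_filter, mem_powersetCard]
        exact ⟨⟨hI'.trans hI, hc⟩, hd.subset (by exact_mod_cast hI')⟩
    _ ≤ ∑ I ∈ 𝒥, p ^ #(I.biUnion F) :=
        (Pr_exists_le h0 h1 _ _).trans (sum_le_sum fun I _ => Pr_subset_le h0 h1 _)
    _ = ∑ I ∈ 𝒥, Real.exp (-k) * ∏ i ∈ I, (Real.exp 1 * p ^ #(F i)) := by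
        refine sum_congr rfl fun I hI => ?_
        rw [h𝒥, mem_filter, mem_powersetCard] at hI
        rw [card_biUnion hI.2, ← prod_pow_eq_pow_sum, prod_mul_distrib, prod_const, hI.1.2,
          ← Real.exp_nat_mul, ← mul_assoc, ← Real.exp_add]
        simp
    _ ≤ Real.exp (-k) * ∑ I ∈ J.powerset, ∏ i ∈ I, (Real.exp 1 * p ^ #(F i)) := by
        rw [← mul_sum]
        refine mul_le_mul_of_nonneg_left ?_ (Real.exp_pos _).le
        refine sum_le_sum_of_subset_of_nonneg ?_ fun I _ _ => prod_nonneg fun i _ => by positivity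
        intro I hI
        rw [h𝒥, mem_filter, mem_powersetCard] at hI
        exact mem_powerset.mpr hI.1.1
    _ = Real.exp (-k) * ∏ i ∈ J, (1 + Real.exp 1 * p ^ #(F i)) := by rw [prod_one_add]
    _ ≤ Real.exp (-k) * ∏ i ∈ J, Real.exp (3 * p ^ #(F i)) := by
        refine mul_le_mul_of_nonneg_left ?_ (Real.exp_pos _).le
        refine prod_le_prod (fun i _ => by positivity) fun i _ => ?_
        have h2 := Real.add_one_le_exp (3 * p ^ #(F i))
        have h3 : Real.exp 1 * p ^ #(F i) ≤ 3 * p ^ #(F i) :=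
          mul_le_mul_of_nonneg_right hE (by positivity)
        linarith
    _ ≤ _ := by
        rw [← Real.exp_sum, ← Real.exp_add, ← mul_sum]
        apply Real.exp_le_exp.mpr
        linarith

/-- Upper tail for a family of pairwise disjoint sets. -/
theorem Pr_upper (h0 : 0 ≤ p) (h1 : p ≤ 1) {ι : Type*} [DecidableEq ι] (J : Finset ι)
    (F : ι → Finset α) (hd : (J : Set ι).PairwiseDisjoint F) (k : ℕ) {μ : ℝ}
    (hμ : ∑ i ∈ J, p ^ #(F i) ≤ μ) :
    Pr Ω p (fun R => k ≤ #(J.filter fun i => F i ⊆ R)) ≤ Real.exp (3 * μ - k) := by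
  refine le_trans (Pr_mono h0 h1 fun R _ h => ?_) (Pr_ET h0 h1 J F k hμ)
  exact ⟨_, filter_subset _ _, h, hd.subset (by exact_mod_cast filter_subset _ _),
    fun i hi => (mem_filter.mp hi).2⟩

/-- Two-stage exposure. -/
theorem Pr_two_stage (h0 : 0 ≤ p) (h1 : p ≤ 1) {Ω₁ Ω₂ : Finset α} (h : Disjoint Ω₁ Ω₂)
    (E E₁ : Finset α → Prop) {δ : ℝ} (hδ : 0 ≤ δ)
    (h2 : ∀ Q ⊆ Ω₁, ¬ E₁ Q → Pr Ω₂ p (fun R => E (Q ∪ R)) ≤ δ) :
    Pr (Ω₁ ∪ Ω₂) p E ≤ Pr Ω₁ p E₁ + δ := by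
  classical
  unfold Pr
  rw [Ex_union h, ← Ex_const Ω₁ p δ, ← Ex_add]
  refine Ex_mono h0 h1 fun Q hQ => ?_
  by_cases hE : E₁ Q
  · simp only [hE, if_true]
    refine le_trans (b := Ex Ω₂ p fun _ => 1) (Ex_mono h0 h1 fun R _ => ?_) ?_
    · split_ifs <;> norm_num
    · rw [Ex_const]; linarith
  · simp only [hE, if_false, zero_add]
    exact h2 Q hQ hE

end

/-- Maximal disjoint subfamily. -/
theorem exists_maximal_family {ι : Type*} [DecidableEq ι] (J : Finset ι) (F : ι → Finset α)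
    (hF : ∀ i ∈ J, (F i).Nonempty) (R : Finset α) :
    ∃ I ⊆ J, (I : Set ι).PairwiseDisjoint F ∧ (∀ i ∈ I, F i ⊆ R) ∧
      ∀ i ∈ J, ¬ F i ⊆ R \ I.biUnion F := by
  classical
  obtain ⟨I, hI, hmax⟩ := exists_max_image
    (J.powerset.filter fun I : Finset ι => (I : Set ι).PairwiseDisjoint F ∧ ∀ i ∈ I, F i ⊆ R) card
    ⟨∅, by simp⟩
  rw [mem_filter, mem_powerset] at hI
  refine ⟨I, hI.1, hI.2.1, hI.2.2, fun i hi hsub => ?_⟩
  have hdis : ∀ j ∈ I, Disjoint (F i) (F j) := fun j hj =>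
    disjoint_left.mpr fun e he hej =>
      (mem_sdiff.mp (hsub he)).2 (mem_biUnion.mpr ⟨j, hj, hej⟩)
  have hiI : i ∉ I := fun h => by
    obtain ⟨e, he⟩ := hF i hi
    exact disjoint_left.mp (hdis i h) he he
  have := hmax (insert i I) (by
    rw [mem_filter, mem_powerset]
    refine ⟨insert_subset hi hI.1, ?_, ?_⟩
    · rw [coe_insert]
      exact hI.2.1.insert fun j hj _ => hdis j hj
    · intro j hj
      rcases mem_insert.mp hj with rfl | hj
      · exact hsub.trans sdiff_subset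
      · exact hI.2.2 j hj)
  rw [card_insert_of_notMem hiI] at this
  omega

end Pool.Agent.P.MP_4bfc47_co
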