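import Pool.Agent.P.MP_4bfc47_co.Det

/-! The probabilistic estimates. -/

set_option autoImplicit false
set_option linter.unusedSectionVars false

namespace Pool.Agent.P.MP_4bfc47_co
open Finset

variable {V : Type*} [DecidableEq V] [Fintype V] {Ω : Finset (Sym2 V)} {p : ℝ}

theorem Pr_many (h0 : 0 ≤ p) (h1 : p ≤ 1) {A B : Finset V} (hAB : Disjoint A B) (i j M k : ℕ)
    (N : V → Finset V) (hN : ∀ y ∈ B, #(N y) ≤ M) :
    Pr Ω p (fun R => ∃ x ∈ (univ : Finset V), Many (fam A B i N j) k R x)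
      ≤ Fintype.card V *
        Real.exp (3 * (((#A ^ i * (#A + #B) * M ^ j : ℕ) : ℝ) * p ^ ((i + 1) * (j + 1))) - k) := by
  classical
  refine Pr_exists_le' h0 h1 _ _ fun x _ => ?_
  refine Pr_ET h0 h1 (thru (fam A B i N j) x) (fun q => K q.1 q.2) k ?_
  rw [sum_congr rfl (g := fun _ => p ^ ((i + 1) * (j + 1)))
    (fun q hq => by rw [card_K_fam hAB q (mem_filter.mp hq).1]), sum_const, nsmul_eq_mul]
  refine mul_le_mul_of_nonneg_right ?_ (by positivity)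
  exact_mod_cast card_thru_fam A B i j M N hN x

theorem Pr_deg (h0 : 0 ≤ p) (h1 : p ≤ 1) (T : Finset V) (L : ℕ) :
    Pr Ω p (fun R => ∃ x ∈ (univ : Finset V), L ≤ #(nb R x T))
      ≤ Fintype.card V * Real.exp (3 * (#T * p) - L) := by
  refine Pr_exists_le' h0 h1 _ _ fun x _ => ?_
  have := Pr_upper (Ω := Ω) h0 h1 T (fun y => ({s(x, y)} : Finset (Sym2 V)))
    (fun y _ y' _ h => by
      simp only [Function.onFun, disjoint_singleton]
      exact fun h' => h (mk_right_injective x h')) L (μ := #T * p) (by simp)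
  simpa only [singleton_subset_iff, nb] using this

theorem Pr_codeg (h0 : 0 ≤ p) (h1 : p ≤ 1) {S B : Finset V} (hSB : Disjoint S B) (c : ℕ) :
    Pr Ω p (fun R => ∃ q ∈ S.offDiag, c ≤ #(cod R q.1 q.2 B))
      ≤ #S ^ 2 * Real.exp (3 * (#B * p ^ 2) - c) := by
  refine (Pr_exists_le' h0 h1 _ _ (δ := Real.exp (3 * (#B * p ^ 2) - c)) ?_).trans ?_
  · rintro ⟨x, x'⟩ hq
    obtain ⟨hx, hx', hne⟩ := mem_offDiag.mp hq
    have hd : ∀ y ∈ B, Disjoint ({x, x'} : Finset V) {y} := fun y hy =>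
      hSB.mono (by simp [insert_subset_iff, hx, hx'] : ({x, x'} : Finset V) ⊆ S)
        (singleton_subset_iff.mpr hy)
    have := Pr_upper (Ω := Ω) h0 h1 B (fun y => K {x, x'} {y})
      (fun y hy y' hy' h => by
        refine disjoint_left.mpr fun e he he' => ?_
        obtain ⟨a, ha, b, hb, rfl⟩ := mem_K'.mp he
        obtain rfl := mem_singleton.mp hb
        rcases mem_K.mp he' with h2 | h2
        · exact h (mem_singleton.mp h2.2)
        · exact disjoint_left.mp (hd y' hy') ha h2.1) c (μ := #B * p ^ 2)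
      (by
        rw [sum_congr rfl (g := fun _ => p ^ 2)
          (fun y hy => by rw [card_K (hd y hy), card_pair hne, card_singleton]), sum_const,
          nsmul_eq_mul])
    refine le_trans (Pr_mono h0 h1 fun R _ h => h.trans (card_le_card fun y hy => ?_)) this
    obtain ⟨h2, h3, h4⟩ := mem_cod.mp hy
    refine mem_filter.mpr ⟨h2, K_subset_iff.mpr ?_⟩
    simp only [mem_insert, mem_singleton, forall_eq_or_imp, forall_eq]
    exact ⟨h3, h4⟩
  · refine mul_le_mul_of_nonneg_right ?_ (Real.exp_pos _).le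
    have : #S.offDiag ≤ #S ^ 2 := by rw [offDiag_card, sq]; omega
    exact_mod_cast this

theorem Pr_low (h0 : 0 ≤ p) (h1 : p ≤ 1) {X T : Finset V} (hd : Disjoint X T)
    (hΩ : ∀ x ∈ X, ∀ y ∈ T, s(x, y) ∈ Ω) {ε l : ℝ} (hε : 0 < ε) (hε1 : ε < 1)
    (hl : l ≤ (1 - ε) ^ 2 * p * #T) :
    Pr Ω p (fun R => ∃ x ∈ X, (#(nb R x T) : ℝ) < l) ≤ #X * Real.exp (-(ε ^ 2 * p * #T)) := by
  refine Pr_exists_le' h0 h1 _ _ fun x hx => ?_
  have hc : #(K {x} T) = #T := by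
    rw [card_K (hd.mono_left (singleton_subset_iff.mpr hx)), card_singleton, one_mul]
  have := Pr_lower (Ω := Ω) h0 h1 (K {x} T) (K_subset_iff.mpr fun a ha y hy => by
    obtain rfl := mem_singleton.mp ha; exact hΩ a hx y hy) hε hε1
  rw [hc] at this
  refine le_trans (Pr_mono h0 h1 fun R _ h => ?_) this
  rw [card_K_inter]; linarith

theorem Pr_indep (h0 : 0 ≤ p) (h1 : p ≤ 1) {S : Finset V}
    (hΩ : ∀ x ∈ S, ∀ y ∈ S, x ≠ y → s(x, y) ∈ Ω) (u : ℕ) :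
    Pr Ω p (fun R => ∃ q ∈ S.powerset ×ˢ S.powerset, #q.1 = u ∧ #q.2 = u ∧ Disjoint q.1 q.2 ∧
      Disjoint (K q.1 q.2) R) ≤ 4 ^ #S * Real.exp (-(p * u ^ 2)) := by
  refine (Pr_exists_le' h0 h1 _ _ (δ := Real.exp (-(p * u ^ 2))) ?_).trans (le_of_eq ?_)
  · rintro ⟨X, Y⟩ hq
    rw [mem_product, mem_powerset, mem_powerset] at hq
    by_cases h : #X = u ∧ #Y = u ∧ Disjoint X Y
    · have := Pr_disjoint_le (Ω := Ω) h0 h1 (K X Y) (K_subset_iff.mpr fun x hx y hy =>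
        hΩ x (hq.1 hx) y (hq.2 hy) fun h' => disjoint_left.mp h.2.2 hx (h' ▸ hy))
      rw [card_K h.2.2, h.1, h.2.1] at this
      refine le_trans (Pr_mono h0 h1 fun R _ h => h.2.2.2) (this.trans (le_of_eq ?_))
      push_cast; ring_nf
    · refine le_trans (Pr_mono h0 h1 (E' := fun _ => False) fun R _ h' =>
        h ⟨h'.1, h'.2.1, h'.2.2.1⟩) ?_
      simp only [Pr, if_false, Ex_const]; positivity
  · rw [card_product, card_powerset]
    push_cast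
    rw [← mul_pow]; norm_num

theorem Pr_K23 (h0 : 0 ≤ p) (h1 : p ≤ 1) (S : Finset V) :
    Pr Ω p (fun R => ∃ q ∈ S.powersetCard 2 ×ˢ S.powersetCard 3, Disjoint q.1 q.2 ∧ K q.1 q.2 ⊆ R)
      ≤ #S ^ 5 * p ^ 6 := by
  refine (Pr_exists_le' h0 h1 _ _ (δ := p ^ 6) ?_).trans ?_
  · rintro ⟨X, Y⟩ hq
    rw [mem_product, mem_powersetCard, mem_powersetCard] at hq
    by_cases h : Disjoint X Y
    · have := Pr_subset_le (Ω := Ω) h0 h1 (K X Y)
      rw [card_K h, hq.1.2, hq.2.2] at this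
      exact le_trans (Pr_mono h0 h1 fun R _ h => h.2) this
    · refine le_trans (Pr_mono h0 h1 (E' := fun _ => False) fun R _ h' => h h'.1) ?_
      simp only [Pr, if_false, Ex_const]; positivity
  · refine mul_le_mul_of_nonneg_right ?_ (by positivity)
    have : #(S.powersetCard 2 ×ˢ S.powersetCard 3) ≤ #S ^ 5 := by
      rw [card_product, card_powersetCard, card_powersetCard, show 5 = 2 + 3 from rfl, pow_add]
      exact Nat.mul_le_mul (Nat.choose_le_pow _ _) (Nat.choose_le_pow _ _)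
    exact_mod_cast this

theorem Pr_not_good1 (h0 : 0 ≤ p) (h1 : p ≤ 1) {S B : Finset V} (hSB : Disjoint S B)
    (hΩ : ∀ x ∈ S, ∀ y, x ≠ y → s(x, y) ∈ Ω) (u L D c k : ℕ) {ε l : ℝ} (hε : 0 < ε) (hε1 : ε < 1)
    (hl : l ≤ (1 - ε) ^ 2 * p * #B) :
    Pr Ω p (fun Q => ¬ Good1 S B u L D c k l Q) ≤
      4 ^ #S * Real.exp (-(p * u ^ 2)) + (#S ^ 5 * p ^ 6 +
      (Fintype.card V * Real.exp (3 * (#S * p) - L) +
      (Fintype.card V * Real.exp (3 * (#B * p) - D) +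
      (#S ^ 2 * Real.exp (3 * (#B * p ^ 2) - c) +
      (#S * Real.exp (-(ε ^ 2 * p * #B)) +
      Fintype.card V * Real.exp (3 * (((#S ^ 2 * (#S + #B) * #B ^ 1 : ℕ) : ℝ) *
        p ^ ((2 + 1) * (1 + 1))) - k)))))) := by
  have e1 := Pr_indep (Ω := Ω) h0 h1 (fun x hx y _ h => hΩ x hx y h) u
  have e2 := Pr_K23 (Ω := Ω) h0 h1 S
  have e3 := Pr_deg (Ω := Ω) h0 h1 S L
  have e4 := Pr_deg (Ω := Ω) h0 h1 B D
  have e5 := Pr_codeg (Ω := Ω) h0 h1 hSB c
  have e6 := Pr_low (Ω := Ω) h0 h1 hSB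
    (fun x hx y hy => hΩ x hx y fun h => disjoint_left.mp hSB hx (h ▸ hy)) hε hε1 hl
  have e7 := Pr_many (Ω := Ω) h0 h1 hSB 2 1 #B k (fun _ => B) (fun _ _ => le_rfl)
  refine le_trans (Pr_mono h0 h1 fun Q _ hQ => ?_)
    ((Pr_or_le h0 h1 _ _).trans (add_le_add e1 ((Pr_or_le h0 h1 _ _).trans (add_le_add e2
    ((Pr_or_le h0 h1 _ _).trans (add_le_add e3 ((Pr_or_le h0 h1 _ _).trans (add_le_add e4
    ((Pr_or_le h0 h1 _ _).trans (add_le_add e5 ((Pr_or_le h0 h1 _ _).trans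
      (add_le_add e6 e7))))))))))))
  by_contra hc
  simp only [not_or, not_exists, not_and] at hc
  obtain ⟨c1, c2, c3, c4, c5, c6, c7⟩ := hc
  exact hQ ⟨c1, c2, fun x => (not_le.mp (c3 x (mem_univ _))).le,
    fun x => (not_le.mp (c4 x (mem_univ _))).le,
    fun x hx x' hx' h => (not_le.mp (c5 (x, x') (mem_offDiag.mpr ⟨hx, hx', h⟩))).le,
    fun x hx => not_lt.mp (c6 x hx), fun x => c7 x (mem_univ _)⟩

theorem Pr_not_good2 (h0 : 0 ≤ p) (h1 : p ≤ 1) {S A B : Finset V} (hAB : Disjoint A B)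
    {u L D c k : ℕ} {ε l : ℝ} (hε : 0 < ε) (hε1 : ε < 1) {Q : Finset (Sym2 V)}
    (g : Good1 S B u L D c k l Q)
    (hl : l ≤ (1 - ε) ^ 2 * p * #B) (hl' : l ≤ (1 - ε) ^ 2 * p * #A) :
    Pr (K A B) p (fun R => ¬ Good2 S A B k l Q R) ≤
      #A * Real.exp (-(ε ^ 2 * p * #B)) + (#B * Real.exp (-(ε ^ 2 * p * #A)) +
      (Fintype.card V * Real.exp (3 * (((#A ^ 1 * (#A + #B) * (L * ((L + 1) * D)) ^ 2 : ℕ) : ℝ) *
        p ^ ((1 + 1) * (2 + 1))) - k) +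
      Fintype.card V * Real.exp (3 * (((#A ^ 0 * (#A + #B) * (L * (L * c)) ^ 1 : ℕ) : ℝ) *
        p ^ ((0 + 1) * (1 + 1))) - k))) := by
  have e1 := Pr_low (Ω := K A B) h0 h1 hAB
    (fun x hx y hy => mem_K.mpr (Or.inl ⟨hx, hy⟩)) hε hε1 hl
  have e2 := Pr_low (Ω := K A B) h0 h1 hAB.symm
    (fun x hx y hy => mem_K.mpr (Or.inr ⟨hx, hy⟩)) hε hε1 hl'
  have e3 := Pr_many (Ω := K A B) h0 h1 hAB 1 2 _ k (N1 S B Q) (fun y _ => g.card_N1 y)
  have e4 := Pr_many (Ω := K A B) h0 h1 hAB 0 1 _ k (N2 S B Q) (fun y _ => g.card_N2 y)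
  refine le_trans (Pr_mono h0 h1 fun R _ hR => ?_)
    ((Pr_or_le h0 h1 _ _).trans (add_le_add e1 ((Pr_or_le h0 h1 _ _).trans (add_le_add e2
    ((Pr_or_le h0 h1 _ _).trans (add_le_add e3 e4))))))
  by_contra hc
  simp only [not_or, not_exists, not_and] at hc
  obtain ⟨c1, c2, c3, c4⟩ := hc
  exact hR ⟨fun x hx => not_lt.mp (c1 x hx), fun x hx => not_lt.mp (c2 x hx),
    fun x => c3 x (mem_univ _), fun x => c4 x (mem_univ _)⟩

end Pool.Agent.P.MP_4bfc47_co
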